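import Pool.Agent.TH967.DP.Bad

/-!
# Directed polymers and tubes around deterministic curves: deterministic comparison in a window
-/

set_option autoImplicit false

open Classical

namespace Pool.Agent.R800.DT

open TH967.DP

variable {d : ℕ}

/-- the point `x` lies in the box of radius `D` around `γ t` -/
def InTube (γ : ℕ → Fin d → ℤ) (D t : ℕ) (x : Fin d → ℤ) : Prop := ∀ k, |x k - γ t k| ≤ (D : ℤ)

/-- the path that starts at time `t0` at `γ t0 + u` has the right parity and stays in the tube -/
def TC (γ : ℕ → Fin d → ℤ) (D m t0 : ℕ) (p : Box d D × (Fin m → Step d)) : Prop :=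
  par (γ t0 + p.1.1) = (t0 : ZMod 2) ∧ ∀ i ≤ m, InTube γ D (t0 + i) (γ t0 + p.1.1 + pos p.2 i)

/-- sum over the paths in the tube shifted by `z`, in the time window `[t0, t0 + m]` -/
noncomputable def coreZ (β : ℝ) (η : ℕ → (Fin d → ℤ) → ℝ) (γ : ℕ → Fin d → ℤ) (D m t0 : ℕ)
    (z : Fin d → ℤ) : ℝ :=
  ∑ p : Box d D × (Fin m → Step d), if TC γ D m t0 p then
    Real.exp (β * energy (shift t0 (γ t0 + z + p.1.1) η) p.2) else 0

lemma energy_bd {η : ℕ → (Fin d → ℤ) → ℝ} {R : ℝ} {l t T : ℕ} (hG : Good η l R)
    {p : Fin d → ℤ} (hp : ∀ k, |p k| ≤ (t : ℤ)) (hl : t + T ≤ l) (c : Fin T → Step d) :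
    |energy (shift t p η) c| ≤ T * R := by
  unfold energy
  refine (Finset.abs_sum_le_sum_abs _ _).trans ?_
  have : ∀ i : Fin T, |shift t p η (i.val + 1) (pos c (i.val + 1))| ≤ R := by
    intro i
    unfold shift
    apply hG _ (by omega) (by have := i.isLt; omega)
    intro k
    have h1 := abs_pos_le c (i.val + 1) k
    have h2 := hp k
    have h3 : |(p + pos c (i.val + 1)) k| ≤ |p k| + |pos c (i.val + 1) k| := by
      rw [Pi.add_apply]
      exact abs_add_le _ _
    have h4 : ((t + T : ℕ) : ℤ) ≤ (l : ℤ) := by exact_mod_cast hl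
    push_cast at h4
    linarith
  refine (Finset.sum_le_sum (fun i _ => this i)).trans ?_
  rw [Finset.sum_const, Finset.card_univ, Fintype.card_fin, nsmul_eq_mul]

lemma shift_shift (s t : ℕ) (p q : Fin d → ℤ) (η : ℕ → (Fin d → ℤ) → ℝ) :
    shift t q (shift s p η) = shift (s + t) (p + q) η := by
  unfold shift
  funext i x
  rw [add_assoc, add_assoc]

/-- comparison by endpoint -/
lemma cmp_end {β : ℝ} {η : ℕ → (Fin d → ℤ) → ℝ} {U : ℕ} (Q : (Fin U → Step d) → Prop) {A δ : ℝ}
    (hA : ∑ b : Fin U → Step d, (if Q b then Real.exp (β * energy η b) else 0) ≤ δ * A)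
    (hδ : 0 ≤ δ) (hY : ∀ b : Fin U → Step d, Q b → A ≤ ZY β η U (pos b U))
    (hd : 0 < d) (r : ℕ) :
    ∑ u : Fin U → Step d,
      (if Q u then Real.exp (β * energy η u) else 0) * ZF β (shift U (pos u U) η) r ≤
      δ * ZF β η (U + r) := by
  rw [ZF_eq]
  set Y := (Finset.univ : Finset (Fin U → Step d)).image (fun u => pos u U) with hYdef
  rw [← Finset.sum_fiberwise_of_maps_to (s := Finset.univ) (t := Y) (g := fun u => pos u U)
    (fun u _ => Finset.mem_image_of_mem _ (Finset.mem_univ u)),
    ← Finset.sum_fiberwise_of_maps_to (s := Finset.univ) (t := Y) (g := fun u => pos u U)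
    (fun u _ => Finset.mem_image_of_mem _ (Finset.mem_univ u)), Finset.mul_sum]
  apply Finset.sum_le_sum
  intro y _
  have e1 : ∑ u ∈ (Finset.univ : Finset (Fin U → Step d)) with pos u U = y,
      (if Q u then Real.exp (β * energy η u) else 0) * ZF β (shift U (pos u U) η) r =
      (∑ u ∈ (Finset.univ : Finset (Fin U → Step d)) with pos u U = y,
        (if Q u then Real.exp (β * energy η u) else 0)) * ZF β (shift U y η) r := by
    rw [Finset.sum_mul]
    apply Finset.sum_congr rfl
    intro u hu
    rw [(Finset.mem_filter.1 hu).2]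
  have e2 : ∑ u ∈ (Finset.univ : Finset (Fin U → Step d)) with pos u U = y,
      Real.exp (β * energy η u) * ZF β (shift U (pos u U) η) r =
      ZY β η U y * ZF β (shift U y η) r := by
    unfold ZY
    rw [← Finset.sum_filter, Finset.sum_mul]
    apply Finset.sum_congr rfl
    intro u hu
    rw [(Finset.mem_filter.1 hu).2]
  rw [e1, e2, ← mul_assoc]
  apply mul_le_mul_of_nonneg_right _ (ZF_pos hd β _ r).le
  by_cases hex : ∃ u : Fin U → Step d, Q u ∧ pos u U = y
  · obtain ⟨u, hu, hy⟩ := hex
    have h1 : ∑ u ∈ (Finset.univ : Finset (Fin U → Step d)) with pos u U = y,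
        (if Q u then Real.exp (β * energy η u) else 0) ≤
        ∑ b : Fin U → Step d, (if Q b then Real.exp (β * energy η b) else 0) := by
      apply Finset.sum_le_sum_of_subset_of_nonneg (Finset.filter_subset _ _)
      intro v _ _
      split_ifs
      · positivity
      · exact le_rfl
    refine h1.trans (hA.trans ?_)
    have := hY u hu
    rw [hy] at this
    exact mul_le_mul_of_nonneg_left this hδ
  · have h0 : ∑ u ∈ (Finset.univ : Finset (Fin U → Step d)) with pos u U = y,
        (if Q u then Real.exp (β * energy η u) else 0) = 0 := by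
      apply Finset.sum_eq_zero
      intro u hu
      rw [if_neg]
      intro hc
      exact hex ⟨u, hc, (Finset.mem_filter.1 hu).2⟩
    rw [h0]
    apply mul_nonneg hδ
    unfold ZY
    apply Finset.sum_nonneg
    intro u _
    split_ifs
    · positivity
    · exact le_rfl

/-- the path `b` that starts at time `s` at `p` stays in the tube -/
def QQ (γ : ℕ → Fin d → ℤ) (D s : ℕ) (p : Fin d → ℤ) {U : ℕ} (b : Fin U → Step d) : Prop :=
  ∀ i ≤ U, InTube γ D (s + i) (p + pos b i)

/-- incumbent bound -/
lemma incumbent {β R : ℝ} (hβ : 0 < β) {η : ℕ → (Fin d → ℤ) → ℝ} {l : ℕ} (hG : Good η l R)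
    {γ : ℕ → Fin d → ℤ} {D s T m : ℕ} {p : Fin d → ℤ} (hp : ∀ k, |p k| ≤ (s : ℤ))
    (hpar : par p = (s : ZMod 2)) (hl : s + (T + (m + T)) ≤ l) :
    ∑ b : Fin (T + (m + T)) → Step d,
      (if QQ γ D s p b then Real.exp (β * energy (shift s p η) b) else 0) ≤
      (2 * (d : ℝ)) ^ (T + T) * Real.exp (β * ((T + T : ℕ) * R)) * coreZ β η γ D m (s + T) 0 := by
  have hcard : ∀ N : ℕ, (Finset.univ : Finset (Fin N → Step d)).card = (2 * d) ^ N := by
    intro N
    rw [Finset.card_univ, Fintype.card_fun, Fintype.card_prod, Fintype.card_fin,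
      Fintype.card_bool, Fintype.card_fin, mul_comm]
  rw [sum_append]
  have key : ∀ b1 : Fin T → Step d, ∑ c : Fin (m + T) → Step d,
      (if QQ γ D s p (Fin.append b1 c) then
        Real.exp (β * energy (shift s p η) (Fin.append b1 c)) else 0) ≤
      (2 * (d : ℝ)) ^ T * Real.exp (β * ((T + T : ℕ) * R)) * coreZ β η γ D m (s + T) 0 := by
    intro b1
    rw [sum_append]
    have hp1 : ∀ k, |(p + pos b1 T) k| ≤ ((s + T : ℕ) : ℤ) := by
      intro k
      have h1 := abs_pos_le b1 T k
      have h2 := hp k
      have h3 : |(p + pos b1 T) k| ≤ |p k| + |pos b1 T k| := by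
        rw [Pi.add_apply]
        exact abs_add_le _ _
      push_cast
      linarith
    have h1 : ∀ (w : Fin m → Step d) (b3 : Fin T → Step d),
        (if QQ γ D s p (Fin.append b1 (Fin.append w b3)) then
          Real.exp (β * energy (shift s p η) (Fin.append b1 (Fin.append w b3))) else 0) ≤
        (if (∀ i ≤ m, InTube γ D (s + T + i) (p + pos b1 T + pos w i)) then
          Real.exp (β * energy (shift (s + T) (p + pos b1 T) η) w) else 0) *
          Real.exp (β * ((T + T : ℕ) * R)) := by
      intro w b3
      by_cases hq : QQ γ D s p (Fin.append b1 (Fin.append w b3))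
      · have hH : ∀ i ≤ m, InTube γ D (s + T + i) (p + pos b1 T + pos w i) := by
          intro i hi
          have h2 := hq (T + i) (by omega)
          rw [pos_append_right, pos_append_left w b3 hi, ← add_assoc, ← add_assoc] at h2
          exact h2
        rw [if_pos hq, if_pos hH, ← Real.exp_add, Real.exp_le_exp, energy_append, energy_append,
          shift_shift, shift_shift]
        have e1 := (abs_le.1 (energy_bd hG hp (by omega) b1)).2
        have e2 := (abs_le.1 (energy_bd (t := s + T + m) (T := T) hG
          (p := p + pos b1 T + pos w m) (by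
            intro k
            have h3 := abs_pos_le w m k
            have h4 := hp1 k
            have h5 : |(p + pos b1 T + pos w m) k| ≤ |(p + pos b1 T) k| + |pos w m k| := by
              rw [Pi.add_apply (p + pos b1 T)]
              exact abs_add_le _ _
            push_cast at h4 ⊢
            linarith) (by omega) b3)).2
        have e3 := mul_le_mul_of_nonneg_left e1 hβ.le
        have e4 := mul_le_mul_of_nonneg_left e2 hβ.le
        push_cast
        nlinarith
      · rw [if_neg hq]
        split_ifs
        · positivity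
        · simp
    have h2 : ∑ w : Fin m → Step d, ∑ b3 : Fin T → Step d,
        (if QQ γ D s p (Fin.append b1 (Fin.append w b3)) then
          Real.exp (β * energy (shift s p η) (Fin.append b1 (Fin.append w b3))) else 0) ≤
        ∑ w : Fin m → Step d, (2 * (d : ℝ)) ^ T *
        ((if (∀ i ≤ m, InTube γ D (s + T + i) (p + pos b1 T + pos w i)) then
          Real.exp (β * energy (shift (s + T) (p + pos b1 T) η) w) else 0) *
          Real.exp (β * ((T + T : ℕ) * R))) := by
      apply Finset.sum_le_sum
      intro w _
      refine (Finset.sum_le_sum (fun b3 _ => h1 w b3)).trans ?_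
      rw [Finset.sum_const, hcard, nsmul_eq_mul]
      push_cast
      exact le_rfl
    refine h2.trans ?_
    rw [← Finset.mul_sum, ← Finset.sum_mul]
    have h3 : ∑ w : Fin m → Step d,
        (if (∀ i ≤ m, InTube γ D (s + T + i) (p + pos b1 T + pos w i)) then
          Real.exp (β * energy (shift (s + T) (p + pos b1 T) η) w) else 0) ≤
        coreZ β η γ D m (s + T) 0 := by
      have hnn : ∀ q : Box d D × (Fin m → Step d), 0 ≤ (if TC γ D m (s + T) q then
          Real.exp (β * energy (shift (s + T) (γ (s + T) + 0 + q.1.1) η) q.2) else 0) := by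
        intro q
        split_ifs
        · positivity
        · exact le_rfl
      by_cases hex : InTube γ D (s + T) (p + pos b1 T)
      · set u : Box d D := ⟨p + pos b1 T - γ (s + T), mem_box.2 (fun k => hex k)⟩ with hu
        have hγu : γ (s + T) + u.1 = p + pos b1 T := by
          rw [hu]
          simp
        unfold coreZ
        rw [Fintype.sum_prod_type]
        refine le_trans ?_ (Finset.single_le_sum (f := fun u' : Box d D =>
          ∑ w : Fin m → Step d, (if TC γ D m (s + T) (u', w) then
          Real.exp (β * energy (shift (s + T) (γ (s + T) + 0 + u'.1) η) w) else 0))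
          (fun u' _ => Finset.sum_nonneg (fun w _ => hnn (u', w))) (Finset.mem_univ u))
        apply Finset.sum_le_sum
        intro w _
        by_cases hH : ∀ i ≤ m, InTube γ D (s + T + i) (p + pos b1 T + pos w i)
        · rw [if_pos hH, if_pos, add_zero, hγu]
          refine ⟨?_, ?_⟩
          · show par (γ (s + T) + u.1) = ((s + T : ℕ) : ZMod 2)
            rw [hγu, par_add, hpar, par_pos b1 le_rfl]
            push_cast
            rfl
          · intro i hi
            show InTube γ D (s + T + i) (γ (s + T) + u.1 + pos w i)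
            rw [hγu]
            exact hH i hi
        · rw [if_neg hH]
          exact hnn (u, w)
      · refine le_trans (le_of_eq ?_) (Finset.sum_nonneg (fun q _ => hnn q))
        apply Finset.sum_eq_zero
        intro w _
        rw [if_neg]
        intro hH
        apply hex
        have h4 := hH 0 (by omega)
        have h5 : pos w 0 = 0 := by
          unfold pos
          simp
        rw [h5, add_zero, add_zero] at h4
        exact h4
    have hnn2 : (0 : ℝ) ≤ (2 * (d : ℝ)) ^ T := by positivity
    calc (2 * (d : ℝ)) ^ T * ((∑ w : Fin m → Step d,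
        (if (∀ i ≤ m, InTube γ D (s + T + i) (p + pos b1 T + pos w i)) then
          Real.exp (β * energy (shift (s + T) (p + pos b1 T) η) w) else 0)) *
          Real.exp (β * ((T + T : ℕ) * R)))
        ≤ (2 * (d : ℝ)) ^ T * (coreZ β η γ D m (s + T) 0 *
          Real.exp (β * ((T + T : ℕ) * R))) := by gcongr
      _ = _ := by ring
  refine (Finset.sum_le_sum (fun b1 _ => key b1)).trans ?_
  rw [Finset.sum_const, hcard, nsmul_eq_mul, pow_add]
  push_cast
  apply le_of_eq
  ring

/-- competitor bound -/
lemma competitor (hd : 0 < d) {β R : ℝ} (hβ : 0 < β) {η : ℕ → (Fin d → ℤ) → ℝ} {l : ℕ}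
    (hG : Good η l R) {γ : ℕ → Fin d → ℤ} {D s T m : ℕ} {p z : Fin d → ℤ}
    (hp : ∀ k, |p k| ≤ (s : ℤ)) (hpar : par p = (s : ZMod 2)) (hpT : InTube γ D s p)
    (hz : par z = 0) (hl : s + (T + (m + T)) ≤ l)
    (hc1 : ∀ t x y, InTube γ D t x → InTube γ D (t + T) y → ∑ k, |(y + z - x) k| ≤ (T : ℤ))
    (hc2 : ∀ t x y, InTube γ D t x → InTube γ D (t + T) y → ∑ k, |(y - (x + z)) k| ≤ (T : ℤ))
    {b : Fin (T + (m + T)) → Step d} (hb : QQ γ D s p b) :
    coreZ β η γ D m (s + T) z * Real.exp (-(β * ((T + T : ℕ) * R))) ≤
      ZY β (shift s p η) (T + (m + T)) (pos b (T + (m + T))) := by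
  set y := pos b (T + (m + T)) with hy
  have hyT : InTube γ D (s + (T + (m + T))) (p + y) := hb _ le_rfl
  have hypar : par (p + y) = ((s + (T + (m + T)) : ℕ) : ZMod 2) := by
    rw [par_add, hpar, hy, par_pos b le_rfl]
    push_cast
    ring
  -- first paths
  have hfirst : ∀ u : Box d D, ∃ b1 : Fin T → Step d, (∃ w : Fin m → Step d,
      TC γ D m (s + T) (u, w)) → pos b1 T = γ (s + T) + z + u.1 - p := by
    intro u
    by_cases hex : ∃ w : Fin m → Step d, TC γ D m (s + T) (u, w)
    · obtain ⟨w, hw1, hw2⟩ := hex
      have h0 := hw2 0 (by omega)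
      have h5 : pos w 0 = 0 := by
        unfold pos
        simp
      simp only at h0 hw1
      rw [h5, add_zero, add_zero] at h0
      obtain ⟨b1, hb1⟩ := exists_walk hd T (γ (s + T) + z + u.1 - p) (by
        have h6 := hc1 s p (γ (s + T) + u.1) hpT h0
        have e : γ (s + T) + u.1 + z - p = γ (s + T) + z + u.1 - p := by abel
        rw [e] at h6
        exact h6) (by
        have e : γ (s + T) + z + u.1 - p = (γ (s + T) + u.1) + z - p := by abel
        rw [e, par_sub, par_add, hw1, hz, hpar]
        push_cast
        ring)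
      exact ⟨b1, fun _ => hb1⟩
    · exact ⟨fun _ => (⟨0, hd⟩, true), fun h => absurd h hex⟩
  choose b1 hb1 using hfirst
  -- the terms
  have hnnF : ∀ (a : Fin T → Step d) (w : Fin m → Step d) (c : Fin T → Step d),
      0 ≤ (if pos (Fin.append a (Fin.append w c)) (T + (m + T)) = y then
        Real.exp (β * energy (shift s p η) (Fin.append a (Fin.append w c))) else 0) := by
    intro a w c
    split_ifs
    · positivity
    · exact le_rfl
  set F : (Fin T → Step d) → ℝ := fun a => ∑ w : Fin m → Step d, ∑ c : Fin T → Step d,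
    (if pos (Fin.append a (Fin.append w c)) (T + (m + T)) = y then
      Real.exp (β * energy (shift s p η) (Fin.append a (Fin.append w c))) else 0) with hF
  have hZY : ZY β (shift s p η) (T + (m + T)) y = ∑ a, F a := by
    unfold ZY
    rw [sum_append]
    apply Finset.sum_congr rfl
    intro a _
    rw [sum_append]
  have hFnn : ∀ a, 0 ≤ F a := fun a =>
    Finset.sum_nonneg (fun w _ => Finset.sum_nonneg (fun c _ => hnnF a w c))
  set S : Finset (Box d D) := Finset.univ.filter (fun u => ∃ w : Fin m → Step d,
    TC γ D m (s + T) (u, w)) with hS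
  have hterm : ∀ u ∈ S, (∑ w : Fin m → Step d, (if TC γ D m (s + T) (u, w) then
      Real.exp (β * energy (shift (s + T) (γ (s + T) + z + u.1) η) w) else 0)) *
      Real.exp (-(β * ((T + T : ℕ) * R))) ≤ F (b1 u) := by
    intro u hu
    have hex := (Finset.mem_filter.1 hu).2
    have hpos1 := hb1 u hex
    rw [Finset.sum_mul]
    apply Finset.sum_le_sum
    intro w _
    by_cases hw : TC γ D m (s + T) (u, w)
    · rw [if_pos hw]
      have hwm := hw.2 m le_rfl
      simp only at hwm
      obtain ⟨c, hc⟩ := exists_walk hd T (p + y - (γ (s + T) + u.1 + pos w m + z)) (by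
        have h6 := hc2 (s + T + m) (γ (s + T) + u.1 + pos w m) (p + y) hwm (by
          have e : s + T + m + T = s + (T + (m + T)) := by omega
          rw [e]
          exact hyT)
        exact h6) (by
        have hw1 := hw.1
        simp only at hw1
        rw [par_sub, par_add (γ (s + T) + u.1 + pos w m), par_add (γ (s + T) + u.1), hw1, hz,
          par_pos w le_rfl, hypar]
        push_cast
        ring)
      refine le_trans ?_ (Finset.single_le_sum (f := fun c : Fin T → Step d =>
        (if pos (Fin.append (b1 u) (Fin.append w c)) (T + (m + T)) = y then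
        Real.exp (β * energy (shift s p η) (Fin.append (b1 u) (Fin.append w c))) else 0))
        (fun c _ => hnnF (b1 u) w c) (Finset.mem_univ c))
      have hend : pos (Fin.append (b1 u) (Fin.append w c)) (T + (m + T)) = y := by
        rw [pos_append_right, pos_append_right, hpos1, hc]
        abel

      rw [if_pos hend, energy_append, energy_append, shift_shift, shift_shift, hpos1,
        ← Real.exp_add, Real.exp_le_exp]
      have hpp : p + (γ (s + T) + z + u.1 - p) = γ (s + T) + z + u.1 := by abel
      rw [hpp]
      have hq1 : ∀ k, |(γ (s + T) + z + u.1) k| ≤ ((s + T : ℕ) : ℤ) := by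
        intro k
        have h1 := abs_pos_le (b1 u) T k
        have h2 := hp k
        have e : (γ (s + T) + z + u.1) k = p k + pos (b1 u) T k := by
          rw [hpos1]
          simp
        rw [e]
        have h3 := abs_add_le (p k) (pos (b1 u) T k)
        push_cast
        linarith
      have e1 := (abs_le.1 (energy_bd hG hp (by omega) (b1 u))).1
      have e2 := (abs_le.1 (energy_bd (t := s + T + m) (T := T) hG
        (p := γ (s + T) + z + u.1 + pos w m) (by
          intro k
          have h3 := abs_pos_le w m k
          have h4 := hq1 k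
          have h5 : |(γ (s + T) + z + u.1 + pos w m) k| ≤
              |(γ (s + T) + z + u.1) k| + |pos w m k| := by
            rw [Pi.add_apply (γ (s + T) + z + u.1)]
            exact abs_add_le _ _
          push_cast at h4 ⊢
          linarith) (by omega) c)).1
      have e3 := mul_le_mul_of_nonneg_left e1 hβ.le
      have e4 := mul_le_mul_of_nonneg_left e2 hβ.le
      push_cast
      nlinarith
    · rw [if_neg hw, zero_mul]
      exact Finset.sum_nonneg (fun c _ => hnnF (b1 u) w c)
  have hinj : Set.InjOn b1 S := by
    intro u hu u' hu' huu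
    have h1 := hb1 u (Finset.mem_filter.1 hu).2
    have h2 := hb1 u' (Finset.mem_filter.1 hu').2
    rw [huu, h2] at h1
    apply Subtype.ext
    have h3 : γ (s + T) + z + u'.1 - p = γ (s + T) + z + u.1 - p := h1
    have h4 := sub_left_injective h3
    exact (add_left_cancel h4).symm
  rw [hZY]
  calc coreZ β η γ D m (s + T) z * Real.exp (-(β * ((T + T : ℕ) * R)))
      = ∑ u : Box d D, (∑ w : Fin m → Step d, (if TC γ D m (s + T) (u, w) then
      Real.exp (β * energy (shift (s + T) (γ (s + T) + z + u.1) η) w) else 0)) *
      Real.exp (-(β * ((T + T : ℕ) * R))) := by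
        unfold coreZ
        rw [Fintype.sum_prod_type, Finset.sum_mul]
    _ = ∑ u ∈ S, (∑ w : Fin m → Step d, (if TC γ D m (s + T) (u, w) then
      Real.exp (β * energy (shift (s + T) (γ (s + T) + z + u.1) η) w) else 0)) *
      Real.exp (-(β * ((T + T : ℕ) * R))) := by
        symm
        apply Finset.sum_subset (Finset.subset_univ _)
        intro u _ hu
        have hne : ¬ ∃ w : Fin m → Step d, TC γ D m (s + T) (u, w) := by
          intro h
          exact hu (Finset.mem_filter.2 ⟨Finset.mem_univ _, h⟩)
        push Not at hne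
        have h0 : ∑ w : Fin m → Step d, (if TC γ D m (s + T) (u, w) then
          Real.exp (β * energy (shift (s + T) (γ (s + T) + z + u.1) η) w) else 0) = 0 := by
          apply Finset.sum_eq_zero
          intro w _
          rw [if_neg (hne w)]
        rw [h0, zero_mul]
    _ ≤ ∑ u ∈ S, F (b1 u) := Finset.sum_le_sum hterm
    _ = ∑ a ∈ S.image b1, F a := (Finset.sum_image (fun u hu u' hu' h => hinj hu hu' h)).symm
    _ ≤ ∑ a, F a := Finset.sum_le_sum_of_subset_of_nonneg (Finset.subset_univ _)
        (fun a _ _ => hFnn a)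

end Pool.Agent.R800.DT
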