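import Pool.Agent.R800.DT.Scale2

/-!
# Directed polymers and tubes around deterministic curves: almost sure statements
-/

set_option autoImplicit false

open MeasureTheory ProbabilityTheory Filter Topology
open Classical

namespace Pool.Agent.R800.DT

open TH967.DP

variable {d : ℕ} {Ω : Type*} [MeasurableSpace Ω] {P : Measure Ω} [IsProbabilityMeasure P]

/-- almost sure statement for a sequence of families of curves -/
theorem as_fam {ω : ℕ → (Fin d → ℤ) → Ω → ℝ} (h : IsEnv P ω) (hd : 0 < d)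
    (hexp : ∀ b : ℝ, Integrable (fun x => Real.exp (b * ω 1 0 x)) P)
    (hnc : ¬ ∃ c : ℝ, ∀ᵐ x ∂P, ω 1 0 x = c) {β : ℝ} (hβ : 0 < β) {κ lam : ℝ} (hκ : 0 < κ)
    (hκ2 : κ * (d + 2) < 1) (hlam : lam < (1 - d * κ) / 2) :
    ∃ c : ℝ, 0 < c ∧ ∀ q C : ℕ, 1 ≤ q → ∀ G : ℕ → Finset (ℕ → Fin d → ℤ),
      (∀ᶠ l : ℕ in atTop, ((G l).card : ℝ) ≤ Real.exp ((l : ℝ) ^ c)) →
      (∀ l, ∀ γ ∈ G l, Slow q C γ) →
      ∀ᵐ x ∂P, ∀ᶠ l : ℕ in atTop, ∀ n, l ≤ n →
        polymerProb β (fun i y => ω i y x) n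
          {w | ∃ γ ∈ G l, ∀ i ≤ l, euclid (pos w i - γ i) ≤ (l : ℝ) ^ κ} ≤
          Real.exp (-(l : ℝ) ^ lam) := by
  obtain ⟨c, hc, hmain⟩ := one_scale_fam h hd hexp hnc hβ hκ hκ2 hlam
  refine ⟨c, hc, ?_⟩
  intro q C hq G hGc hGs
  have hev := (hmain q C hq).and hGc
  obtain ⟨l0, hl0⟩ := eventually_atTop.1 hev
  have hex : ∀ l, l0 ≤ l → ∃ B : Set Ω, P.real B ≤ (l : ℝ) ^ (-2 : ℝ) ∧
      ∀ x, x ∉ B → ∀ n, l ≤ n → polymerProb β (fun i y => ω i y x) n
          {w | ∃ γ ∈ G l, ∀ i ≤ l, euclid (pos w i - γ i) ≤ (l : ℝ) ^ κ} ≤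
          Real.exp (-(l : ℝ) ^ lam) :=
    fun l hl => (hl0 l hl).1 (G l) (hl0 l hl).2 (hGs l)
  choose! B hB using hex
  have hsum : ∑' k, P (B (k + l0)) ≠ ⊤ := by
    have hle : ∀ k, P (B (k + l0)) ≤ ENNReal.ofReal (((k + l0 : ℕ) : ℝ) ^ (-2 : ℝ)) := by
      intro k
      rw [← ofReal_measureReal (μ := P) (s := B (k + l0))]
      exact ENNReal.ofReal_le_ofReal (hB (k + l0) (by omega)).1
    have hsm : Summable (fun k : ℕ => ((k + l0 : ℕ) : ℝ) ^ (-2 : ℝ)) :=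
      (summable_nat_add_iff (f := fun k : ℕ => (k : ℝ) ^ (-2 : ℝ)) l0).2
        (Real.summable_nat_rpow.2 (by norm_num))
    exact ne_top_of_le_ne_top hsm.tsum_ofReal_ne_top (ENNReal.tsum_le_tsum hle)
  filter_upwards [ae_eventually_notMem hsum] with x hx
  obtain ⟨k0, hk0⟩ := eventually_atTop.1 hx
  rw [eventually_atTop]
  refine ⟨k0 + l0, fun l hl n hn => ?_⟩
  have h1 := hk0 (l - l0) (by omega)
  have e : l - l0 + l0 = l := by omega
  rw [e] at h1
  exact (hB l (by omega)).2 x h1 n hn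

/-- the lattice approximation of the line through `a / l` -/
def lineC (l : ℕ) (a : Fin d → ℤ) : ℕ → Fin d → ℤ := fun i k => ((i : ℤ) * a k) / (l : ℤ)

lemma lineC_slow {q l : ℕ} (hl : 1 ≤ l) {a : Fin d → ℤ}
    (ha : (q : ℤ) * ∑ k, |a k| + (l : ℤ) ≤ (q : ℤ) * l) : Slow q d (lineC l a) := by
  intro s t
  have hlz : (0 : ℤ) < l := by exact_mod_cast hl
  have h1 : ∀ k, (l : ℤ) * |lineC l a (s + t) k - lineC l a s k| ≤ (t : ℤ) * |a k| + l := by
    intro k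
    unfold lineC
    have e1 := Int.mul_ediv_add_emod (((s + t : ℕ) : ℤ) * a k) l
    have e2 := Int.mul_ediv_add_emod ((s : ℤ) * a k) l
    have m1 := Int.emod_nonneg (((s + t : ℕ) : ℤ) * a k) hlz.ne'
    have m2 := Int.emod_lt_of_pos (((s + t : ℕ) : ℤ) * a k) hlz
    have m3 := Int.emod_nonneg ((s : ℤ) * a k) hlz.ne'
    have m4 := Int.emod_lt_of_pos ((s : ℤ) * a k) hlz
    have e3 : (l : ℤ) * |((s + t : ℕ) : ℤ) * a k / l - (s : ℤ) * a k / l| =
        |(l : ℤ) * (((s + t : ℕ) : ℤ) * a k / l - (s : ℤ) * a k / l)| := by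
      rw [abs_mul, abs_of_pos hlz]
    rw [e3]
    have e4 : (l : ℤ) * (((s + t : ℕ) : ℤ) * a k / l - (s : ℤ) * a k / l) =
        (t : ℤ) * a k + ((s : ℤ) * a k % l - ((s + t : ℕ) : ℤ) * a k % l) := by
      rw [mul_sub]
      push_cast at e1 e2 ⊢
      linarith
    rw [e4]
    refine (abs_add_le _ _).trans ?_
    rw [abs_mul, abs_of_nonneg (by positivity : (0 : ℤ) ≤ (t : ℤ))]
    have : |(s : ℤ) * a k % l - ((s + t : ℕ) : ℤ) * a k % l| ≤ l := by
      rw [abs_le]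
      constructor <;> linarith
    linarith
  have h2 : (l : ℤ) * ∑ k, |lineC l a (s + t) k - lineC l a s k| ≤
      (t : ℤ) * ∑ k, |a k| + (d : ℤ) * l := by
    rw [Finset.mul_sum, Finset.mul_sum]
    refine (Finset.sum_le_sum (fun k _ => h1 k)).trans ?_
    rw [Finset.sum_add_distrib]
    simp
  have h3 : (l : ℤ) * ((q : ℤ) * ∑ k, |lineC l a (s + t) k - lineC l a s k| + (t : ℤ)) ≤
      (l : ℤ) * ((q : ℤ) * t + (q : ℤ) * d) := by
    have h4 := mul_le_mul_of_nonneg_left h2 (by positivity : (0 : ℤ) ≤ (q : ℤ))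
    have h5 := mul_le_mul_of_nonneg_left ha (by positivity : (0 : ℤ) ≤ (t : ℤ))
    nlinarith
  exact le_of_mul_le_mul_left h3 hlz

/-- the Euclidean distance of the lattice point `x` to the real point `y` -/
noncomputable def dist2 (x : Fin d → ℤ) (y : Fin d → ℝ) : ℝ :=
  Real.sqrt (∑ k, ((x k : ℝ) - y k) ^ 2)

lemma abs_le_dist2 (x : Fin d → ℤ) (y : Fin d → ℝ) (k : Fin d) :
    |(x k : ℝ) - y k| ≤ dist2 x y := by
  unfold dist2
  apply Real.le_sqrt_of_sq_le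
  rw [sq_abs]
  exact Finset.single_le_sum (f := fun k => ((x k : ℝ) - y k) ^ 2) (fun _ _ => sq_nonneg _)
    (Finset.mem_univ k)

/-- lattice lines approximate real lines -/
lemma lineC_near {l : ℕ} (hl : 1 ≤ l) (v : Fin d → ℝ) {i : ℕ} (hi : i ≤ l) (x : Fin d → ℤ)
    {ρ : ℝ} (hx : dist2 x (fun k => i * v k) ≤ ρ) :
    euclid (x - lineC l (fun k => ⌊(l : ℝ) * v k⌋) i) ≤ d * (ρ + 2) := by
  have hl0 : (0 : ℝ) < l := by exact_mod_cast hl
  have hlz : (0 : ℤ) < l := by exact_mod_cast hl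
  have hρ : 0 ≤ ρ := le_trans (Real.sqrt_nonneg _) hx
  have h1 : ∀ k, |((x - lineC l (fun k => ⌊(l : ℝ) * v k⌋) i) k : ℝ)| ≤ ρ + 2 := by
    intro k
    have a1 := (abs_le_dist2 x (fun k => i * v k) k).trans hx
    have a2 : |(i : ℝ) * v k - ((lineC l (fun k => ⌊(l : ℝ) * v k⌋) i k : ℤ) : ℝ)| ≤ 2 := by
      unfold lineC
      set f := ⌊(l : ℝ) * v k⌋ with hf
      have f1 := Int.floor_le ((l : ℝ) * v k)
      have f2 := Int.lt_floor_add_one ((l : ℝ) * v k)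
      rw [← hf] at f1 f2
      have e1 := Int.mul_ediv_add_emod ((i : ℤ) * f) l
      have m1 := Int.emod_nonneg ((i : ℤ) * f) hlz.ne'
      have m2 := Int.emod_lt_of_pos ((i : ℤ) * f) hlz
      set g := (i : ℤ) * f / (l : ℤ) with hg
      have e1R : (l : ℝ) * g + (((i : ℤ) * f % l : ℤ) : ℝ) = i * f := by exact_mod_cast e1
      have m1R : (0 : ℝ) ≤ (((i : ℤ) * f % l : ℤ) : ℝ) := by exact_mod_cast m1
      have m2R : (((i : ℤ) * f % l : ℤ) : ℝ) < l := by exact_mod_cast m2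
      have hiR : (i : ℝ) ≤ l := by exact_mod_cast hi
      have hi0 : (0 : ℝ) ≤ i := by positivity
      have k1 : (l : ℝ) * |(i : ℝ) * v k - g| ≤ l * 2 := by
        have e2 : (l : ℝ) * |(i : ℝ) * v k - g| = |(l : ℝ) * ((i : ℝ) * v k - g)| := by
          rw [abs_mul, abs_of_pos hl0]
        rw [e2, abs_le]
        have b1 : (i : ℝ) * f ≤ i * (l * v k) := mul_le_mul_of_nonneg_left f1 hi0
        have b2 : (i : ℝ) * (l * v k) ≤ i * (f + 1) := mul_le_mul_of_nonneg_left f2.le hi0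
        constructor <;> nlinarith
      exact le_of_mul_le_mul_left k1 hl0
    have e : (((x - lineC l (fun k => ⌊(l : ℝ) * v k⌋) i) k : ℤ) : ℝ) =
        ((x k : ℝ) - i * v k) +
        ((i : ℝ) * v k - ((lineC l (fun k => ⌊(l : ℝ) * v k⌋) i k : ℤ) : ℝ)) := by
      rw [Pi.sub_apply]
      push_cast
      ring
    rw [e]
    exact (abs_add_le _ _).trans (by linarith)
  unfold euclid
  apply Real.sqrt_le_iff.2
  refine ⟨by positivity, ?_⟩
  have h2 : ∀ k, (((x - lineC l (fun k => ⌊(l : ℝ) * v k⌋) i) k : ℤ) : ℝ) ^ 2 ≤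
      (ρ + 2) ^ 2 := by
    intro k
    rw [← sq_abs]
    exact pow_le_pow_left₀ (abs_nonneg _) (h1 k) 2
  refine (Finset.sum_le_sum (fun k _ => h2 k)).trans ?_
  rw [Finset.sum_const, Finset.card_univ, Fintype.card_fin, nsmul_eq_mul, mul_pow]
  apply mul_le_mul_of_nonneg_right _ (by positivity)
  rcases Nat.eq_zero_or_pos d with h0 | h0
  · rw [h0]; norm_num
  · have : (1 : ℝ) ≤ d := by exact_mod_cast h0
    nlinarith

/-- all lines at once -/
theorem as_lines {ω : ℕ → (Fin d → ℤ) → Ω → ℝ} (h : IsEnv P ω) (hd : 0 < d)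
    (hexp : ∀ b : ℝ, Integrable (fun x => Real.exp (b * ω 1 0 x)) P)
    (hnc : ¬ ∃ c : ℝ, ∀ᵐ x ∂P, ω 1 0 x = c) {β : ℝ} (hβ : 0 < β) {κ lam : ℝ} (hκ : 0 < κ)
    (hκ2 : κ * (d + 2) < 1) (hlam : lam < (1 - d * κ) / 2) {θ : ℝ} (hθ : 0 < θ) :
    ∀ᵐ x ∂P, ∀ᶠ l : ℕ in atTop, ∀ n, l ≤ n →
        polymerProb β (fun i y => ω i y x) n
          {w | ∃ v : Fin d → ℝ, ∑ k, |v k| ≤ 1 - θ ∧
            ∀ i ≤ l, dist2 (pos w i) (fun k => i * v k) ≤ (l : ℝ) ^ κ} ≤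
          Real.exp (-(l : ℝ) ^ lam) := by
  have hd1 : (1 : ℝ) ≤ d := by exact_mod_cast hd
  -- a slightly larger exponent
  obtain ⟨κ', hκ', hκ'2, hlam'⟩ : ∃ κ', κ < κ' ∧ κ' * (d + 2) < 1 ∧
      lam < (1 - d * κ') / 2 := by
    obtain ⟨s, hs, hs1, hs2⟩ : ∃ s : ℝ, 0 < s ∧ s * (2 * (d + 2)) ≤ 1 - κ * (d + 2) ∧
        s * (2 * (d + 2)) ≤ (1 - d * κ) / 2 - lam := by
      have hdd : (0 : ℝ) < 2 * (d + 2) := by positivity
      refine ⟨min (1 - κ * (d + 2)) ((1 - d * κ) / 2 - lam) / (2 * (d + 2)), ?_, ?_, ?_⟩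
      · apply div_pos _ hdd
        apply lt_min <;> linarith
      · rw [div_mul_cancel₀ _ hdd.ne']
        exact min_le_left _ _
      · rw [div_mul_cancel₀ _ hdd.ne']
        exact min_le_right _ _
    refine ⟨κ + s, by linarith, ?_, ?_⟩
    · nlinarith
    · nlinarith
  obtain ⟨c, hc, hmain⟩ := as_fam h hd hexp hnc hβ (hκ.trans hκ') hκ'2 hlam'
  -- the speed
  obtain ⟨q, hq⟩ := exists_nat_gt (2 / θ)
  have hq0 : (0 : ℝ) < q := lt_trans (by positivity) hq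
  have hq1 : 1 ≤ q := by exact_mod_cast hq0
  have hqθ : 2 < q * θ := by
    rw [div_lt_iff₀ hθ] at hq
    exact hq
  let G : ℕ → Finset (ℕ → Fin d → ℤ) := fun l =>
    if 1 ≤ l then ((Finset.Icc (fun _ : Fin d => -(l : ℤ)) (fun _ => (l : ℤ))).filter
      (fun a => (q : ℤ) * ∑ k, |a k| + (l : ℤ) ≤ (q : ℤ) * l)).image (lineC l) else ∅
  have hcard : ∀ᶠ l : ℕ in atTop, ((G l).card : ℝ) ≤ Real.exp ((l : ℝ) ^ c) := by
    have q8 := G_dom (e := c) hc (K1 := 1) zero_le_one d 0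
    filter_upwards [q8, eventually_ge_atTop 1] with l r8 hl1
    have hl1R : (1 : ℝ) ≤ l := by exact_mod_cast hl1
    have h1 : (G l).card ≤ (2 * l + 1) ^ d := by
      simp only [G]
      rw [if_pos hl1]
      refine Finset.card_image_le.trans ((Finset.card_filter_le _ _).trans ?_)
      rw [card_box]
    have h2 : ((G l).card : ℝ) ≤ (2 * (l : ℝ) + 1) ^ d := by exact_mod_cast h1
    rw [neg_zero, Real.rpow_zero, Real.exp_neg] at r8
    have h3 : (0 : ℝ) < Real.exp ((l : ℝ) ^ c) := Real.exp_pos _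
    have h4 : (l : ℝ) * (2 * l + 1) ^ d ≤ Real.exp ((l : ℝ) ^ c) := by
      have : (l : ℝ) * (2 * l + 1) ^ d * (Real.exp ((l : ℝ) ^ c))⁻¹ ≤ 1 := by
        have : 0 ≤ (l : ℝ) * (2 * l + 1) ^ d * (Real.exp ((l : ℝ) ^ c))⁻¹ := by positivity
        linarith
      rw [← div_eq_mul_inv, div_le_one h3] at this
      exact this
    refine h2.trans (le_trans ?_ h4)
    have : (0 : ℝ) ≤ (2 * (l : ℝ) + 1) ^ d := by positivity
    nlinarith
  have hslow : ∀ l, ∀ γ ∈ G l, Slow q d γ := by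
    intro l γ hγ
    simp only [G] at hγ
    by_cases hl1 : 1 ≤ l
    · rw [if_pos hl1] at hγ
      obtain ⟨a, ha, rfl⟩ := Finset.mem_image.1 hγ
      exact lineC_slow hl1 (Finset.mem_filter.1 ha).2
    · rw [if_neg hl1] at hγ
      simp at hγ
  have hfin := hmain q d hq1 G hcard hslow
  -- thresholds
  have p1 := pow_dom hκ' (3 * (d : ℝ))
  have p2 : ∀ᶠ l : ℕ in atTop, (q : ℝ) * d ≤ l := by
    obtain ⟨N, hN⟩ := exists_nat_ge ((q : ℝ) * d)
    filter_upwards [eventually_ge_atTop N] with l hl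
    exact hN.trans (by exact_mod_cast hl)
  have p3 := (p1.and p2).and (eventually_ge_atTop 1)
  filter_upwards [hfin] with x hx
  filter_upwards [hx, p3] with l hxl hp3
  obtain ⟨⟨r1, r2⟩, hl1⟩ := hp3
  intro n hn
  refine le_trans (polymerProb_mono hd β _ n ?_) (hxl n hn)
  intro w hw
  obtain ⟨v, hv1, hv2⟩ := hw
  have hl0 : (0 : ℝ) < l := by exact_mod_cast hl1
  have hl1R : (1 : ℝ) ≤ l := by exact_mod_cast hl1
  have hv3 : ∀ k, |v k| ≤ 1 := by
    intro k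
    have := Finset.single_le_sum (f := fun k => |v k|) (fun _ _ => abs_nonneg _)
      (Finset.mem_univ k)
    linarith
  refine ⟨lineC l (fun k => ⌊(l : ℝ) * v k⌋), ?_, ?_⟩
  · simp only [G]
    rw [if_pos hl1]
    apply Finset.mem_image_of_mem
    rw [Finset.mem_filter]
    refine ⟨mem_box.2 ?_, ?_⟩
    · intro k
      have h1 := abs_le.1 (hv3 k)
      rw [abs_le]
      constructor
      · apply Int.le_floor.2
        push_cast
        nlinarith
      · have : ⌊(l : ℝ) * v k⌋ ≤ ⌊((l : ℤ) : ℝ)⌋ := by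
          apply Int.floor_le_floor
          push_cast
          nlinarith
        rwa [Int.floor_intCast] at this
    · have h1 : ∀ k, |((⌊(l : ℝ) * v k⌋ : ℤ) : ℝ)| ≤ l * |v k| + 1 := by
        intro k
        have f1 := Int.floor_le ((l : ℝ) * v k)
        have f2 := Int.lt_floor_add_one ((l : ℝ) * v k)
        have f3 : |(l : ℝ) * v k| = l * |v k| := by rw [abs_mul, abs_of_pos hl0]
        rw [← f3]
        have f4 := le_abs_self ((l : ℝ) * v k)
        have f5 := neg_abs_le ((l : ℝ) * v k)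
        rw [abs_le]
        constructor <;> linarith
      have h2 : ∑ k, |((⌊(l : ℝ) * v k⌋ : ℤ) : ℝ)| ≤ l * (1 - θ) + d := by
        refine (Finset.sum_le_sum (fun k _ => h1 k)).trans ?_
        rw [Finset.sum_add_distrib, ← Finset.mul_sum]
        simp only [Finset.sum_const, Finset.card_univ, Fintype.card_fin, nsmul_eq_mul, mul_one]
        have := mul_le_mul_of_nonneg_left hv1 hl0.le
        linarith
      have h3 : (q : ℝ) * ∑ k, |((⌊(l : ℝ) * v k⌋ : ℤ) : ℝ)| + l ≤ q * l := by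
        have h4 := mul_le_mul_of_nonneg_left h2 hq0.le
        have h5 : 2 * (l : ℝ) ≤ (q * θ) * l := mul_le_mul_of_nonneg_right hqθ.le hl0.le
        nlinarith
      exact_mod_cast h3
  · intro i hi
    refine (lineC_near hl1 v hi (pos w i) (hv2 i hi)).trans ?_
    have h1 : (1 : ℝ) ≤ (l : ℝ) ^ κ := Real.one_le_rpow hl1R hκ.le
    refine le_trans ?_ r1
    nlinarith

/-- fluctuations around the chord -/
theorem as_chord {ω : ℕ → (Fin d → ℤ) → Ω → ℝ} (h : IsEnv P ω) (hd : 0 < d)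
    (hexp : ∀ b : ℝ, Integrable (fun x => Real.exp (b * ω 1 0 x)) P)
    (hnc : ¬ ∃ c : ℝ, ∀ᵐ x ∂P, ω 1 0 x = c) {β : ℝ} (hβ : 0 < β) {κ lam : ℝ} (hκ : 0 < κ)
    (hκ2 : κ * (d + 2) < 1) (hlam : lam < (1 - d * κ) / 2) {θ : ℝ} (hθ : 0 < θ) :
    ∀ᵐ x ∂P, ∀ᶠ l : ℕ in atTop, ∀ n, l ≤ n →
        polymerProb β (fun i y => ω i y x) n
          {w | ∑ k, |(pos w l k : ℝ)| ≤ (1 - θ) * l ∧
            ∀ i ≤ l, dist2 (pos w i) (fun k => (i : ℝ) / l * pos w l k) ≤ (l : ℝ) ^ κ} ≤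
          Real.exp (-(l : ℝ) ^ lam) := by
  filter_upwards [as_lines h hd hexp hnc hβ hκ hκ2 hlam hθ] with x hx
  filter_upwards [hx, eventually_ge_atTop 1] with l hxl hl1
  intro n hn
  have hl0 : (0 : ℝ) < l := by exact_mod_cast hl1
  refine le_trans (polymerProb_mono hd β _ n ?_) (hxl n hn)
  rintro w ⟨hw1, hw2⟩
  refine ⟨fun k => (pos w l k : ℝ) / l, ?_, ?_⟩
  · have : ∀ k, |(pos w l k : ℝ) / l| = |(pos w l k : ℝ)| / l := by
      intro k
      rw [abs_div, abs_of_pos hl0]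
    simp_rw [this]
    rw [← Finset.sum_div, div_le_iff₀ hl0]
    exact hw1
  · intro i hi
    have e : (fun k => (i : ℝ) * ((pos w l k : ℝ) / l)) =
        (fun k => (i : ℝ) / l * pos w l k) := by
      funext k
      ring
    rw [e]
    exact hw2 i hi

end Pool.Agent.R800.DT
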