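import Pool.Agent.R800.DT.Scale1

/-!
# Directed polymers and tubes around deterministic curves: windows that start at any time
-/

set_option autoImplicit false

open MeasureTheory ProbabilityTheory Filter Topology
open Classical

namespace Pool.Agent.R800.DT

open TH967.DP

variable {d : ℕ}

/-- embedding of the blocks of all windows, the first of which starts at time `s0` -/
def embW' {M N : ℕ} (hd : 0 < d) (γ : ℕ → Fin d → ℤ) (D m T s0 : ℕ)
    (p : Fin (N + 1) × (Fin (M + 1) × Blk d D m)) : ℕ × (Fin d → ℤ) :=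
  embT hd γ D m (s0 + p.1.val * (T + (m + T)) + T) p.2

lemma embW'_inj {M N : ℕ} (hd : 0 < d) (γ : ℕ → Fin d → ℤ) {D : ℕ} (hD : 1 ≤ D) (m T s0 : ℕ) :
    Function.Injective (embW' (M := M) (N := N) hd γ D m T s0) := by
  rintro ⟨ν, p⟩ ⟨ν', p'⟩ h
  have h1 := congrArg Prod.fst h
  unfold embW' embT at h1
  simp only at h1
  have hi := p.2.1.isLt
  have hi' := p'.2.1.isLt
  have hνν : ν = ν' := by
    rcases lt_trichotomy ν.val ν'.val with hlt | heq | hgt
    · exfalso
      have : (ν.val + 1) * (T + (m + T)) ≤ ν'.val * (T + (m + T)) := Nat.mul_le_mul_right _ hlt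
      rw [add_mul, one_mul] at this
      omega
    · exact Fin.ext heq
    · exfalso
      have : (ν'.val + 1) * (T + (m + T)) ≤ ν.val * (T + (m + T)) := Nat.mul_le_mul_right _ hgt
      rw [add_mul, one_mul] at this
      omega
  subst hνν
  have h2 : p = p' := embT_inj hd γ hD m _ h
  rw [h2]

/-- the polymer measure of staying in the tube around `γ` in one window -/
lemma polymer_tube' (hd : 0 < d) {β R δ L ρ : ℝ} (hβ : 0 < β) (hδ : 0 < δ)
    {η : ℕ → (Fin d → ℤ) → ℝ} {l : ℕ} (hG : Good η l R) {γ : ℕ → Fin d → ℤ} {D s T m : ℕ}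
    (hD : D = ⌊ρ⌋₊)
    {z : Fin d → ℤ} (hz : par z = 0) (hl : s + (T + (m + T)) ≤ l)
    (hc1 : ∀ t x y, InTube γ D t x → InTube γ D (t + T) y → ∑ k, |(y + z - x) k| ≤ (T : ℤ))
    (hc2 : ∀ t x y, InTube γ D t x → InTube γ D (t + T) y → ∑ k, |(y - (x + z)) k| ≤ (T : ℤ))
    (hL : -Real.log δ + 2 * (β * ((T + T : ℕ) * R)) + (T + T : ℕ) * Real.log (2 * d) ≤ L)
    (hcmp : (∃ p, TC γ D m (s + T) p) →
      Real.log (coreZ β η γ D m (s + T) 0) < Real.log (coreZ β η γ D m (s + T) z) - L)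
    {n : ℕ} (hn : l ≤ n) :
    polymerProb β η n {w | ∀ i ≤ T + (m + T), euclid (pos w (s + i) - γ (s + i)) ≤ ρ} ≤ δ := by
  obtain ⟨r, rfl⟩ : ∃ r, n = s + (T + (m + T) + r) := ⟨n - (s + (T + (m + T))), by omega⟩
  rw [polymerProb_eq hd, div_le_iff₀ (ZF_pos hd β η _)]
  refine le_trans ?_ (window hd hβ hδ hG hz hl hc1 hc2 hL hcmp r)
  apply Finset.sum_le_sum
  intro w _
  by_cases hw : w ∈ {w : Fin (s + (T + (m + T) + r)) → Step d |
      ∀ i ≤ T + (m + T), euclid (pos w (s + i) - γ (s + i)) ≤ ρ}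
  · have hc : ∀ i ≤ T + (m + T), InTube γ D (s + i) (pos w (s + i)) := by
      intro i hi k
      have h2 := (abs_le_euclid (pos w (s + i) - γ (s + i)) k).trans (hw i hi)
      rw [Pi.sub_apply] at h2
      have h3 : ((pos w (s + i) k - γ (s + i) k).natAbs : ℝ) ≤ ρ := by
        rw [Nat.cast_natAbs]
        push_cast
        push_cast at h2
        exact h2
      have h4 := Nat.le_floor h3
      rw [Int.abs_eq_natAbs, hD]
      exact_mod_cast h4
    rw [Set.indicator_of_mem hw, if_pos hc]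
  · rw [Set.indicator_of_notMem hw]
    split_ifs
    · positivity
    · exact le_rfl

variable {Ω : Type*} [MeasurableSpace Ω] {P : Measure Ω} [IsProbabilityMeasure P]

/-- all windows -/
lemma winN' {ω : ℕ → (Fin d → ℤ) → Ω → ℝ} (h : IsEnv P ω) (hd : 0 < d) {β : ℝ}
    {γ : ℕ → Fin d → ℤ} {D m T M N s0 : ℕ} (hD : 1 ≤ D) {L p : ℝ}
    (hwin : ∀ ν : Fin (N + 1), P.real {x | ∀ j : Fin (M + 1),
      YT ω hd β γ D m (s0 + ν.val * (T + (m + T)) + T) M x j - L ≤
      YT ω hd β γ D m (s0 + ν.val * (T + (m + T)) + T) M x 0} ≤ p) :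
    P.real {x | ∀ ν : Fin (N + 1), ∀ j : Fin (M + 1),
      YT ω hd β γ D m (s0 + ν.val * (T + (m + T)) + T) M x j - L ≤
      YT ω hd β γ D m (s0 + ν.val * (T + (m + T)) + T) M x 0} ≤ p ^ (N + 1) := by
  have hprob : IsProbabilityMeasure (P.map (ω 1 0)) :=
    Measure.isProbabilityMeasure_map (h.meas 1 0).aemeasurable
  let E : Fin (N + 1) → Set (Fin (M + 1) × Blk d D m → ℝ) := fun ν => {y | ∀ j : Fin (M + 1),
    YY β (visT (γ := γ) (D := D) (m := m) (t0 := s0 + ν.val * (T + (m + T)) + T))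
      (fun s => y (j, s)) - L ≤
    YY β (visT (γ := γ) (D := D) (m := m) (t0 := s0 + ν.val * (T + (m + T)) + T))
      (fun s => y (0, s))}
  have hEm : ∀ ν, MeasurableSet (E ν) := by
    intro ν
    have : E ν = ⋂ j : Fin (M + 1), {y | YY β (visT (γ := γ) (D := D) (m := m)
        (t0 := s0 + ν.val * (T + (m + T)) + T)) (fun s => y (j, s)) - L ≤
        YY β (visT (γ := γ) (D := D) (m := m) (t0 := s0 + ν.val * (T + (m + T)) + T))
        (fun s => y (0, s))} := by
      ext y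
      simp [E]
    rw [this]
    apply MeasurableSet.iInter
    intro j
    apply measurableSet_le
    · exact ((measurable_YY β _).comp
        (measurable_pi_iff.2 (fun s => measurable_pi_apply (j, s)))).sub measurable_const
    · exact (measurable_YY β _).comp
        (measurable_pi_iff.2 (fun s => measurable_pi_apply (0, s)))
  have hl := law2 h (embW'_inj (M := M) (N := N) hd γ hD m T s0)
  have hmW : Measurable (fun (a : Ω) (ν : Fin (N + 1)) (k : Fin (M + 1) × Blk d D m) =>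
      ω (embW' hd γ D m T s0 (ν, k)).1 (embW' hd γ D m T s0 (ν, k)).2 a) := by
    rw [measurable_pi_iff]
    intro ν
    rw [measurable_pi_iff]
    intro k
    exact h.meas _ _
  have hset : {x | ∀ ν : Fin (N + 1), ∀ j : Fin (M + 1),
      YT ω hd β γ D m (s0 + ν.val * (T + (m + T)) + T) M x j - L ≤
      YT ω hd β γ D m (s0 + ν.val * (T + (m + T)) + T) M x 0} =
      (fun (a : Ω) (ν : Fin (N + 1)) (k : Fin (M + 1) × Blk d D m) =>
      ω (embW' hd γ D m T s0 (ν, k)).1 (embW' hd γ D m T s0 (ν, k)).2 a) ⁻¹' (Set.pi Set.univ E) := by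
    ext x
    simp only [Set.mem_preimage, Set.mem_pi, Set.mem_univ, forall_const, Set.mem_ofPred_eq, E]
    apply forall_congr'
    intro ν
    apply forall_congr'
    intro j
    unfold YT
    rw [← YY_visT, ← YY_visT]
    rfl
  have hPE : ∀ ν, ((Measure.pi (fun _ : Fin (M + 1) × Blk d D m => P.map (ω 1 0)))
      (E ν)).toReal ≤ p := by
    intro ν
    have h1 := law1 h (embT_inj (M := M) hd γ hD m (s0 + ν.val * (T + (m + T)) + T))
    have hm1 : Measurable (fun (a : Ω) (k : Fin (M + 1) × Blk d D m) =>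
        ω (embT hd γ D m (s0 + ν.val * (T + (m + T)) + T) k).1
          (embT hd γ D m (s0 + ν.val * (T + (m + T)) + T) k).2 a) := by
      rw [measurable_pi_iff]
      intro k
      exact h.meas _ _
    have e : P.real {x | ∀ j : Fin (M + 1),
      YT ω hd β γ D m (s0 + ν.val * (T + (m + T)) + T) M x j - L ≤
      YT ω hd β γ D m (s0 + ν.val * (T + (m + T)) + T) M x 0} =
      (Measure.pi (fun _ : Fin (M + 1) × Blk d D m => P.map (ω 1 0))).real (E ν) := by
      rw [← h1, map_measureReal_apply hm1 (hEm ν)]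
      congr 1
      ext x
      simp only [Set.mem_preimage, Set.mem_ofPred_eq, E]
      apply forall_congr'
      intro j
      unfold YT
      rw [← YY_visT, ← YY_visT]
      rfl
    have := hwin ν
    rw [e] at this
    exact this
  rw [hset, ← map_measureReal_apply hmW (MeasurableSet.univ_pi hEm), hl, measureReal_def,
    Measure.pi_pi, ENNReal.toReal_prod]
  calc ∏ ν : Fin (N + 1), ((Measure.pi (fun _ : Fin (M + 1) × Blk d D m => P.map (ω 1 0)))
      (E ν)).toReal ≤ ∏ _ν : Fin (N + 1), p :=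
        Finset.prod_le_prod (fun ν _ => ENNReal.toReal_nonneg) (fun ν _ => hPE ν)
    _ = p ^ (N + 1) := by
        rw [Finset.prod_const, Finset.card_univ, Fintype.card_fin]

/-- the bad event of a curve -/
def badC' (ω : ℕ → (Fin d → ℤ) → Ω → ℝ) (hd : 0 < d) (β : ℝ) (γ : ℕ → Fin d → ℤ)
    (D m T M N s0 : ℕ) (L : ℝ) : Set Ω :=
  {x | (∀ ν : Fin (N + 1), ∃ p, TC γ D m (s0 + ν.val * (T + (m + T)) + T) p) ∧
    ∀ ν : Fin (N + 1), ∀ j : Fin (M + 1),
      YT ω hd β γ D m (s0 + ν.val * (T + (m + T)) + T) M x j - L ≤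
      YT ω hd β γ D m (s0 + ν.val * (T + (m + T)) + T) M x 0}

lemma badC'_bound {ω : ℕ → (Fin d → ℤ) → Ω → ℝ} (h : IsEnv P ω) (hd : 0 < d) {β : ℝ}
    (hβ : 0 < β) {a b : ℝ} (hab : a < b) (hp : 0 < (P.map (ω 1 0)).real (Set.Ici b))
    (hm : 0 < (P.map (ω 1 0)).real (Set.Iic a)) (γ : ℕ → Fin d → ℤ) {D m : ℕ} (T M N s0 : ℕ)
    (hD : 1 ≤ D) (hmpos : 1 ≤ m) {L p : ℝ} (hL0 : 0 ≤ L) (hp0 : 0 ≤ p)
    (hpb : 1 / ((M : ℝ) + 1) + M * ((2 * L + 2) * Real.sqrt ((2 * D + 1) ^ d *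
        (1 / (P.map (ω 1 0)).real (Set.Ici b) + 1 / (P.map (ω 1 0)).real (Set.Iic a))) /
        ((1 - Real.exp (-(β * (b - a)))) * Real.sqrt m)) ≤ p) :
    P.real (badC' ω hd β γ D m T M N s0 L) ≤ p ^ (N + 1) := by
  by_cases hne : ∀ ν : Fin (N + 1), ∃ p, TC γ D m (s0 + ν.val * (T + (m + T)) + T) p
  · refine le_trans (measureReal_mono ?_ (measure_ne_top _ _))
      (winN' h hd (γ := γ) (m := m) (T := T) (M := M) (N := N) (β := β) (s0 := s0) hD (L := L) (p := p)
        (fun ν => (win1 h hd hβ hab hp hm M (hne ν) hD hmpos hL0).trans hpb))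
    intro x hx
    exact hx.2
  · have : badC' ω hd β γ D m T M N s0 L = ∅ := by
      ext x
      simp only [Set.mem_empty_iff_false, iff_false]
      intro hx
      exact hne hx.1
    rw [this]
    simp only [measureReal_empty]
    positivity

lemma good_curve' {ω : ℕ → (Fin d → ℤ) → Ω → ℝ} (hd : 0 < d) {β R δ L ρ : ℝ} (hβ : 0 < β)
    (hδ : 0 < δ) {q C D M T m N l lb s0 : ℕ} (hq : 1 ≤ q) (hD1 : 1 ≤ D) (hD : D = ⌊ρ⌋₊)
    (hT : T = q * (4 * D * M + (2 * d + C) * D)) {γ : ℕ → Fin d → ℤ} (hγ : Slow q C γ)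
    (hNl : (N + 1) * (T + (m + T)) ≤ l) (hlb : s0 + l ≤ lb)
    (hL : -Real.log δ + 2 * (β * ((T + T : ℕ) * R)) + (T + T : ℕ) * Real.log (2 * d) ≤ L)
    {x : Ω} (hG : Good (fun i y => ω i y x) lb R) (hx : x ∉ badC' ω hd β γ D m T M N s0 L)
    {n : ℕ} (hn : lb ≤ n) :
    polymerProb β (fun i y => ω i y x) n
      {w | ∀ i ≤ l, euclid (pos w (s0 + i) - γ (s0 + i)) ≤ ρ} ≤ δ := by
  have hνl : ∀ ν : Fin (N + 1), ν.val * (T + (m + T)) + (T + (m + T)) ≤ l := by
    intro ν
    have : (ν.val + 1) * (T + (m + T)) ≤ (N + 1) * (T + (m + T)) :=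
      Nat.mul_le_mul_right _ (by have := ν.isLt; omega)
    rw [add_mul, one_mul] at this
    omega
  have hνlb : ∀ ν : Fin (N + 1), s0 + ν.val * (T + (m + T)) + (T + (m + T)) ≤ lb := by
    intro ν
    have := hνl ν
    omega
  have hsub : ∀ ν : Fin (N + 1), ({w | ∀ i ≤ l, euclid (pos w (s0 + i) - γ (s0 + i)) ≤ ρ} :
      Set (Fin n → Step d)) ⊆ {w | ∀ i ≤ T + (m + T),
        euclid (pos w (s0 + ν.val * (T + (m + T)) + i) - γ (s0 + ν.val * (T + (m + T)) + i)) ≤
          ρ} := by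
    intro ν w hw i hi
    have h1 := hνl ν
    have h2 := hw (ν.val * (T + (m + T)) + i) (by omega)
    rw [← add_assoc] at h2
    exact h2
  unfold badC' at hx
  simp only [Set.mem_ofPred_eq, not_and_or, not_forall, not_le] at hx
  rcases hx with ⟨ν, hν⟩ | ⟨ν, j, hν⟩
  · refine (polymerProb_mono hd β _ n (hsub ν)).trans
      (polymer_tube' hd hβ hδ hG hD (par_zj hd D 0) (hνlb ν)
      (fun t x y h1 h2 => (geo hd hq hD1 (Nat.zero_le M) hT hγ h1 h2).1)
      (fun t x y h1 h2 => (geo hd hq hD1 (Nat.zero_le M) hT hγ h1 h2).2) hL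
      (fun hex => absurd hex hν) hn)
  · refine (polymerProb_mono hd β _ n (hsub ν)).trans
      (polymer_tube' hd hβ hδ hG hD (par_zj hd D j.val) (hνlb ν)
      (fun t x y h1 h2 => (geo hd hq hD1 (by have := j.isLt; omega : j.val ≤ M) hT hγ h1 h2).1)
      (fun t x y h1 h2 => (geo hd hq hD1 (by have := j.isLt; omega : j.val ≤ M) hT hγ h1 h2).2) hL
      (fun _ => ?_) hn)
    unfold YT at hν
    have e : ((0 : Fin (M + 1)).val) = 0 := rfl
    rw [e, zj_zero] at hν
    exact hν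

end Pool.Agent.R800.DT
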