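import Pool.Agent.R800.DT.Scale1

/-!
# Directed polymers and tubes around deterministic curves: one scale
-/

set_option autoImplicit false

open MeasureTheory ProbabilityTheory Filter Topology
open Classical

namespace Pool.Agent.R800.DT

open TH967.DP

variable {d : ℕ}

/-- numerical bound -/
lemma E_bound2 {n D m : ℕ} {K q κ lp ep : ℝ} (hn1 : (1 : ℝ) ≤ n) (hK : 0 < K) (hq : 0 < q)
    (hlp : 0 ≤ lp) (hDle : (D : ℝ) ≤ (n : ℝ) ^ κ) (hnκ1 : (1 : ℝ) ≤ (n : ℝ) ^ κ)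
    (hmn : (n : ℝ) ^ (1 - ep) / 4 ≤ m) :
    (2 * (n : ℝ) ^ lp + 2) * Real.sqrt ((2 * D + 1) ^ d * K) / (q * Real.sqrt m) ≤
      8 * Real.sqrt (3 ^ d * K) / q * (n : ℝ) ^ (lp + d * κ / 2 - (1 - ep) / 2) := by
  have hn0 : (0 : ℝ) < n := by linarith
  set L := (n : ℝ) ^ lp with hL
  have hL1 : 1 ≤ L := Real.one_le_rpow hn1 hlp
  have t1 : 2 * L + 2 ≤ 4 * L := by linarith
  have t2 : Real.sqrt ((2 * D + 1) ^ d * K) ≤ Real.sqrt (3 ^ d * K) * (n : ℝ) ^ (d * κ / 2) := by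
    have : (2 * (D : ℝ) + 1) ^ d * K ≤ (3 ^ d * K) * (n : ℝ) ^ (d * κ) := by
      have u1 : (2 * (D : ℝ) + 1) ≤ 3 * (n : ℝ) ^ κ := by linarith
      have u2 : (2 * (D : ℝ) + 1) ^ d ≤ 3 ^ d * (n : ℝ) ^ (d * κ) := by
        calc (2 * (D : ℝ) + 1) ^ d ≤ (3 * (n : ℝ) ^ κ) ^ d :=
              pow_le_pow_left₀ (by positivity) u1 d
          _ = 3 ^ d * (n : ℝ) ^ (d * κ) := by
              rw [mul_pow, mul_comm (d : ℝ) κ, Real.rpow_mul hn0.le, Real.rpow_natCast]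
      calc (2 * (D : ℝ) + 1) ^ d * K ≤ (3 ^ d * (n : ℝ) ^ (d * κ)) * K := by gcongr
        _ = _ := by ring
    refine (Real.sqrt_le_sqrt this).trans ?_
    rw [Real.sqrt_mul (by positivity)]
    apply le_of_eq
    congr 1
    rw [Real.sqrt_eq_rpow, ← Real.rpow_mul hn0.le]
    congr 1
    ring
  have t3 : (n : ℝ) ^ ((1 - ep) / 2) / 2 ≤ Real.sqrt m := by
    apply Real.le_sqrt_of_sq_le
    refine le_trans (le_of_eq ?_) hmn
    rw [div_pow, ← Real.rpow_natCast ((n : ℝ) ^ ((1 - ep) / 2)), ← Real.rpow_mul hn0.le]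
    push_cast
    rw [div_mul_cancel₀ _ (two_ne_zero)]
    norm_num
  have hs : 0 < (n : ℝ) ^ ((1 - ep) / 2) := by positivity
  calc (2 * L + 2) * Real.sqrt ((2 * D + 1) ^ d * K) / (q * Real.sqrt m)
      ≤ (4 * L) * (Real.sqrt (3 ^ d * K) * (n : ℝ) ^ (d * κ / 2)) /
        (q * ((n : ℝ) ^ ((1 - ep) / 2) / 2)) := by gcongr
    _ = (8 * Real.sqrt (3 ^ d * K) / q) *
        (L * (n : ℝ) ^ (d * κ / 2) / (n : ℝ) ^ ((1 - ep) / 2)) := by
        field_simp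
        ring
    _ = _ := by
        rw [hL, ← Real.rpow_add hn0, ← Real.rpow_sub hn0]

variable {Ω : Type*} [MeasurableSpace Ω] {P : Measure Ω} [IsProbabilityMeasure P]

/-- one scale, for a family of curves -/
theorem one_scale_fam {ω : ℕ → (Fin d → ℤ) → Ω → ℝ} (h : IsEnv P ω) (hd : 0 < d)
    (hexp : ∀ b : ℝ, Integrable (fun x => Real.exp (b * ω 1 0 x)) P)
    (hnc : ¬ ∃ c : ℝ, ∀ᵐ x ∂P, ω 1 0 x = c) {β : ℝ} (hβ : 0 < β) {κ lam : ℝ} (hκ : 0 < κ)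
    (hκ2 : κ * (d + 2) < 1) (hlam : lam < (1 - d * κ) / 2) :
    ∃ c : ℝ, 0 < c ∧ ∀ q C : ℕ, 1 ≤ q → ∀ᶠ l : ℕ in atTop, ∀ G : Finset (ℕ → Fin d → ℤ),
      (G.card : ℝ) ≤ Real.exp ((l : ℝ) ^ c) → (∀ γ ∈ G, Slow q C γ) →
      ∃ B : Set Ω, P.real B ≤ (l : ℝ) ^ (-2 : ℝ) ∧ ∀ x, x ∉ B → ∀ n, l ≤ n →
        polymerProb β (fun i y => ω i y x) n
          {w | ∃ γ ∈ G, ∀ i ≤ l, euclid (pos w i - γ i) ≤ (l : ℝ) ^ κ} ≤
          Real.exp (-(l : ℝ) ^ lam) := by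
  obtain ⟨a, b, hab, hp, hm⟩ := exists_gap (h.meas 1 0) hexp hnc
  set K := 1 / (P.map (ω 1 0)).real (Set.Ici b) + 1 / (P.map (ω 1 0)).real (Set.Iic a) with hK
  have hKpos : 0 < K := by positivity
  set q' := 1 - Real.exp (-(β * (b - a))) with hq'
  have hqpos : 0 < q' := by
    rw [hq']
    have : Real.exp (-(β * (b - a))) < 1 := by
      rw [← Real.exp_zero]
      apply Real.exp_lt_exp.2
      have := mul_pos hβ (sub_pos.2 hab)
      linarith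
    linarith
  have hd1 : (1 : ℝ) ≤ d := by exact_mod_cast hd
  have hdκ : (0 : ℝ) ≤ d * κ := by positivity
  have hκ3 : κ < (1 - d * κ) / 2 := by linarith
  set mx := max lam κ with hmx
  have hmax : mx < (1 - d * κ) / 2 := max_lt hlam hκ3
  have hmx1 : lam ≤ mx := le_max_left _ _
  have hmx2 : κ ≤ mx := le_max_right _ _
  set g0 := (1 - d * κ) / 2 - mx with hg0
  have hg0pos : 0 < g0 := by rw [hg0]; linarith
  obtain ⟨lp, hlp⟩ : ∃ lp, lp = mx + g0 / 2 := ⟨_, rfl⟩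
  obtain ⟨lam', hlam'⟩ : ∃ lam', lam' = mx + g0 / 4 := ⟨_, rfl⟩
  obtain ⟨al, hal⟩ : ∃ al, al = g0 / 4 := ⟨_, rfl⟩
  obtain ⟨e, he⟩ : ∃ e, e = g0 / 8 := ⟨_, rfl⟩
  obtain ⟨ep, hep⟩ : ∃ ep, ep = g0 / 4 := ⟨_, rfl⟩
  have hlp0 : 0 ≤ lp := by rw [hlp]; linarith
  have hal0 : 0 < al := by rw [hal]; linarith
  have he0 : 0 < e := by rw [he]; linarith
  have hep0 : 0 < ep := by rw [hep]; linarith
  set K1 := ∫ x, (Real.exp (ω 1 0 x) + Real.exp (-ω 1 0 x)) ∂P with hK1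
  have hK1pos : 0 ≤ K1 := integral_nonneg (fun x => by positivity)
  set C0 := 8 * Real.sqrt (3 ^ d * K) / q' with hC0
  have hC0pos : 0 ≤ C0 := by positivity
  have hlogd : 0 ≤ Real.log (2 * d) := by
    apply Real.log_nonneg
    linarith
  refine ⟨e, he0, ?_⟩
  intro q C hq
  have hq1 : (1 : ℝ) ≤ q := by exact_mod_cast hq
  obtain ⟨A, hA⟩ : ∃ A : ℝ, A = q * (4 + (2 * d + C)) := ⟨_, rfl⟩
  have hA0 : 0 ≤ A := by rw [hA]; positivity
  have q1 := pow_dom (s := κ + al) (t := 1 - ep) (by rw [hal, hep]; linarith) (16 * A)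
  have q1' := pow_dom (s := 0) (t := 1 - ep) (by rw [hep]; linarith) 8
  have q2 := pow_dom (s := lam') (t := lp) (by rw [hlam', hlp]; linarith) 3
  have q3 := pow_dom (s := κ + al + e) (t := lp) (by rw [hal, he, hlp]; linarith)
    (3 * (4 * β * A))
  have q4 := pow_dom (s := κ + al) (t := lp) (by rw [hal, hlp]; linarith)
    (3 * (2 * A * Real.log (2 * d)))
  have q5 := pow_dom (s := -al) (t := 0) (by linarith) 6
  have q6 := pow_dom (s := al + (lp + d * κ / 2 - (1 - ep) / 2)) (t := 0)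
    (by rw [hlp, hal, hep]; linarith) (6 * C0)
  have q7 := G_dom (e := e) he0 hK1pos d 2
  have q8 := G_dom (e := e) he0 (K1 := 1) zero_le_one d 2
  have q9 := pow_dom (s := e) (t := ep) (by rw [he, hep]; linarith) 2
  have q10 := pow_dom (s := e) (t := lam') (by rw [he, hlam']; linarith) 2
  have q11 := pow_dom (s := lam) (t := lam') (by rw [hlam']; linarith) 2
  filter_upwards [q1, q1', q2, q3, q4, q5, q6, q7, q8, q9, q10, q11, eventually_ge_atTop 1]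
    with n r1 r1' r2 r3 r4 r5 r6 r7 r8 r9 r10 r11 hn
  intro G hGc hGs
  have hn1 : (1 : ℝ) ≤ n := by exact_mod_cast hn
  have hn0 : (0 : ℝ) < n := by linarith
  set D := ⌊(n : ℝ) ^ κ⌋₊ with hD
  set M := ⌊(n : ℝ) ^ al⌋₊ with hM
  set N := ⌊(n : ℝ) ^ ep⌋₊ with hN
  have hnκ1 : (1 : ℝ) ≤ (n : ℝ) ^ κ := Real.one_le_rpow hn1 hκ.le
  have hnal1 : (1 : ℝ) ≤ (n : ℝ) ^ al := Real.one_le_rpow hn1 hal0.le
  have hnep1 : (1 : ℝ) ≤ (n : ℝ) ^ ep := Real.one_le_rpow hn1 hep0.le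
  have hD1 : 1 ≤ D := Nat.le_floor (by exact_mod_cast hnκ1)
  have hDle : (D : ℝ) ≤ (n : ℝ) ^ κ := Nat.floor_le (by positivity)
  have hMle : (M : ℝ) ≤ (n : ℝ) ^ al := Nat.floor_le (by positivity)
  have hMlt : (n : ℝ) ^ al < (M : ℝ) + 1 := Nat.lt_floor_add_one _
  have hNle : (N : ℝ) ≤ (n : ℝ) ^ ep := Nat.floor_le (by positivity)
  have hNlt : (n : ℝ) ^ ep < (N : ℝ) + 1 := Nat.lt_floor_add_one _
  obtain ⟨T, hT⟩ : ∃ T, T = q * (4 * D * M + (2 * d + C) * D) := ⟨_, rfl⟩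
  have hTle : (T : ℝ) ≤ A * (n : ℝ) ^ (κ + al) := by
    rw [hT, hA, Real.rpow_add hn0]
    push_cast
    have a1 : (D : ℝ) * M ≤ (n : ℝ) ^ κ * (n : ℝ) ^ al := by gcongr
    have a2 : (D : ℝ) ≤ (n : ℝ) ^ κ * (n : ℝ) ^ al := by
      calc (D : ℝ) ≤ (n : ℝ) ^ κ * 1 := by linarith
        _ ≤ _ := by gcongr
    have a3 : (2 * (d : ℝ) + C) * D ≤ (2 * d + C) * ((n : ℝ) ^ κ * (n : ℝ) ^ al) := by gcongr
    have a4 : 4 * (D : ℝ) * M + (2 * d + C) * D ≤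
        (4 + (2 * d + C)) * ((n : ℝ) ^ κ * (n : ℝ) ^ al) := by linarith
    calc (q : ℝ) * (4 * D * M + (2 * d + C) * D)
        ≤ q * ((4 + (2 * d + C)) * ((n : ℝ) ^ κ * (n : ℝ) ^ al)) :=
          mul_le_mul_of_nonneg_left a4 (by positivity)
      _ = _ := by ring
  set U := n / (N + 1) with hU
  have hUlow : (n : ℝ) ^ (1 - ep) / 2 - 1 < U := by
    have h1 : n < (N + 1) * (n / (N + 1) + 1) := Nat.lt_mul_div_succ n (Nat.succ_pos N)
    have h2 : (n : ℝ) < ((N : ℝ) + 1) * ((U : ℝ) + 1) := by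
      rw [hU]
      exact_mod_cast h1
    have h3 : (n : ℝ) = (n : ℝ) ^ (1 - ep) * (n : ℝ) ^ ep := by
      rw [← Real.rpow_add hn0]
      simp
    have h4 : ((N : ℝ) + 1) * ((U : ℝ) + 1) ≤ (2 * (n : ℝ) ^ ep) * ((U : ℝ) + 1) := by
      apply mul_le_mul_of_nonneg_right _ (by positivity)
      linarith
    have h5 : (n : ℝ) ^ (1 - ep) * (n : ℝ) ^ ep < (2 * ((U : ℝ) + 1)) * (n : ℝ) ^ ep := by
      calc (n : ℝ) ^ (1 - ep) * (n : ℝ) ^ ep = n := h3.symm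
        _ < ((N : ℝ) + 1) * ((U : ℝ) + 1) := h2
        _ ≤ (2 * (n : ℝ) ^ ep) * ((U : ℝ) + 1) := h4
        _ = _ := by ring
    have h6 := lt_of_mul_lt_mul_right h5 (by positivity)
    linarith
  rw [Real.rpow_zero] at r1' r5 r6
  have hTU : T + T ≤ U := by
    have : (T : ℝ) + T ≤ U := by linarith
    exact_mod_cast this
  obtain ⟨m, hm'⟩ : ∃ m, U = T + (m + T) := ⟨U - (T + T), by omega⟩
  have hmR : (U : ℝ) = T + (m + T) := by exact_mod_cast hm'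
  have hmn : (n : ℝ) ^ (1 - ep) / 4 ≤ m := by linarith
  have hm1 : 1 ≤ m := by
    have : (0 : ℝ) < m := by linarith
    exact_mod_cast this
  have hNl : (N + 1) * (T + (m + T)) ≤ n := by
    rw [← hm', hU]
    exact Nat.mul_div_le n (N + 1)
  set L := (n : ℝ) ^ lp with hL
  have hL1 : 1 ≤ L := Real.one_le_rpow hn1 hlp0
  have hLcond : -Real.log (Real.exp (-(n : ℝ) ^ lam')) +
      2 * (β * ((T + T : ℕ) * (n : ℝ) ^ e)) + (T + T : ℕ) * Real.log (2 * d) ≤ L := by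
    rw [Real.log_exp, neg_neg]
    push_cast
    have s2 : 2 * (β * (((T : ℝ) + T) * (n : ℝ) ^ e)) ≤
        4 * β * A * (n : ℝ) ^ (κ + al + e) := by
      rw [Real.rpow_add hn0 (κ + al) e]
      calc 2 * (β * (((T : ℝ) + T) * (n : ℝ) ^ e))
          = 4 * β * (T * (n : ℝ) ^ e) := by ring
        _ ≤ 4 * β * ((A * (n : ℝ) ^ (κ + al)) * (n : ℝ) ^ e) := by gcongr
        _ = _ := by ring
    have s3 : ((T : ℝ) + T) * Real.log (2 * d) ≤
        2 * A * Real.log (2 * d) * (n : ℝ) ^ (κ + al) := by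
      calc ((T : ℝ) + T) * Real.log (2 * d) = 2 * T * Real.log (2 * d) := by ring
        _ ≤ 2 * (A * (n : ℝ) ^ (κ + al)) * Real.log (2 * d) := by gcongr
        _ = _ := by ring
    linarith
  have hpb : 1 / ((M : ℝ) + 1) + M * ((2 * L + 2) * Real.sqrt ((2 * D + 1) ^ d * K) /
      (q' * Real.sqrt m)) ≤ Real.exp (-1) := by
    have b3 := E_bound2 (d := d) (n := n) (D := D) (m := m) hn1 hKpos hqpos hlp0 hDle hnκ1 hmn
    have b4 : (1 : ℝ) / (M + 1) ≤ (n : ℝ) ^ (-al) := by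
      rw [Real.rpow_neg hn0.le, ← one_div]
      apply one_div_le_one_div_of_le (by positivity) hMlt.le
    have b5 : (M : ℝ) * (C0 * (n : ℝ) ^ (lp + d * κ / 2 - (1 - ep) / 2)) ≤
        C0 * (n : ℝ) ^ (al + (lp + d * κ / 2 - (1 - ep) / 2)) := by
      rw [Real.rpow_add hn0 al]
      calc (M : ℝ) * (C0 * (n : ℝ) ^ (lp + d * κ / 2 - (1 - ep) / 2))
          ≤ (n : ℝ) ^ al * (C0 * (n : ℝ) ^ (lp + d * κ / 2 - (1 - ep) / 2)) := by gcongr
        _ = _ := by ring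
    have b6 : (M : ℝ) * ((2 * L + 2) * Real.sqrt ((2 * D + 1) ^ d * K) / (q' * Real.sqrt m)) ≤
        (M : ℝ) * (C0 * (n : ℝ) ^ (lp + d * κ / 2 - (1 - ep) / 2)) := by gcongr
    have b7 : (1 : ℝ) / 3 ≤ Real.exp (-1) := by
      rw [Real.exp_neg, ← one_div]
      apply one_div_le_one_div_of_le (Real.exp_pos _)
      have := Real.exp_one_lt_d9
      linarith
    linarith
  refine ⟨{x | ¬ Good (fun i y => ω i y x) n ((n : ℝ) ^ e)} ∪
    ⋃ γ ∈ G, badC ω hd β γ D m T M N L, ?_, ?_⟩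
  · have b1 := good_bound h hexp n ((n : ℝ) ^ e)
    have b2 : P.real (⋃ γ ∈ G, badC ω hd β γ D m T M N L) ≤
        Real.exp ((n : ℝ) ^ e) * Real.exp (-(n : ℝ) ^ ep) := by
      refine (measureReal_biUnion_finset_le _ _).trans ?_
      have b3 : ∀ γ ∈ G, P.real (badC ω hd β γ D m T M N L) ≤ Real.exp (-(n : ℝ) ^ ep) := by
        intro γ _
        refine (badC_bound h hd hβ hab hp hm γ T M N hD1 hm1 (L := L) (p := Real.exp (-1))
          (by linarith) (Real.exp_pos _).le hpb).trans ?_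
        rw [← Real.exp_nat_mul, Real.exp_le_exp]
        push_cast
        linarith
      refine (Finset.sum_le_sum b3).trans ?_
      rw [Finset.sum_const, nsmul_eq_mul]
      exact mul_le_mul_of_nonneg_right hGc (Real.exp_pos _).le
    have b4 : Real.exp ((n : ℝ) ^ e) * Real.exp (-(n : ℝ) ^ ep) ≤ Real.exp (-(n : ℝ) ^ e) := by
      rw [← Real.exp_add, Real.exp_le_exp]
      linarith
    have b5 : 3 * Real.exp (-(n : ℝ) ^ e) ≤ (n : ℝ) ^ (-(2 : ℝ)) := by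
      refine le_trans ?_ r8
      have u1 : (1 : ℝ) ≤ (n : ℝ) * (2 * n + 1) ^ d := by
        have : (1 : ℝ) ≤ (2 * (n : ℝ) + 1) ^ d := one_le_pow₀ (by linarith)
        nlinarith
      have u2 : 0 < Real.exp (-(n : ℝ) ^ e) := Real.exp_pos _
      rw [one_mul]
      nlinarith
    have b6 : 0 < (n : ℝ) ^ (-(2 : ℝ)) := by positivity
    refine (measureReal_union_le _ _).trans ?_
    linarith
  · intro x hx k hk
    simp only [Set.mem_union, Set.mem_ofPred_eq, not_or, not_not, Set.mem_iUnion, not_exists]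
      at hx
    obtain ⟨hG, hbad⟩ := hx
    refine (polymerProb_union hd β _ k G
      (fun γ => {w | ∀ i ≤ n, euclid (pos w i - γ i) ≤ (n : ℝ) ^ κ})).trans ?_
    have c1 : ∀ γ ∈ G, polymerProb β (fun i y => ω i y x) k
        {w | ∀ i ≤ n, euclid (pos w i - γ i) ≤ (n : ℝ) ^ κ} ≤ Real.exp (-(n : ℝ) ^ lam') := by
      intro γ hγ
      exact good_curve hd hβ (Real.exp_pos _) hq hD1 hD hT (hGs γ hγ) hNl hLcond hG
        (hbad γ hγ) hk
    refine (Finset.sum_le_sum c1).trans ?_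
    rw [Finset.sum_const, nsmul_eq_mul]
    refine (mul_le_mul_of_nonneg_right hGc (Real.exp_pos _).le).trans ?_
    rw [← Real.exp_add, Real.exp_le_exp]
    linarith

end Pool.Agent.R800.DT
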