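import Pool.Agent.R800.DT.Loc1
import Pool.Agent.R800.DT.Scale2

/-!
# Directed polymers and tubes around deterministic curves: all windows of one scale
-/

set_option autoImplicit false

open MeasureTheory ProbabilityTheory Filter Topology
open Classical

namespace Pool.Agent.R800.DT

open TH967.DP

variable {d : ℕ}

/-- the choice of the parameters -/
lemma numerics (hd : 0 < d) {K q' β κ lam : ℝ} (hKpos : 0 < K) (hqpos : 0 < q') (hβ : 0 < β)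
    (hκ : 0 < κ) (hκ2 : κ * (d + 2) < 1) (hlam : lam < (1 - d * κ) / 2) :
    ∃ lam' e ep : ℝ, lam < lam' ∧ 0 < e ∧ e < ep ∧ e < lam' ∧ ∀ q C : ℕ, 1 ≤ q →
      ∀ᶠ n : ℕ in atTop, ∃ D M N T m : ℕ, ∃ L : ℝ, D = ⌊(n : ℝ) ^ κ⌋₊ ∧ 1 ≤ D ∧
      T = q * (4 * D * M + (2 * d + C) * D) ∧ 1 ≤ m ∧ (N + 1) * (T + (m + T)) ≤ n ∧
      (n : ℝ) ^ ep ≤ (N : ℝ) + 1 ∧ 0 ≤ L ∧
      (∀ R : ℝ, R ≤ (n : ℝ) ^ e → -Real.log (Real.exp (-(n : ℝ) ^ lam')) +
        2 * (β * ((T + T : ℕ) * R)) + (T + T : ℕ) * Real.log (2 * d) ≤ L) ∧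
      1 / ((M : ℝ) + 1) + M * ((2 * L + 2) * Real.sqrt ((2 * D + 1) ^ d * K) /
        (q' * Real.sqrt m)) ≤ Real.exp (-1) := by
  have hd1 : (1 : ℝ) ≤ d := by exact_mod_cast hd
  have hdκ : (0 : ℝ) ≤ d * κ := by positivity
  have hκ3 : κ < (1 - d * κ) / 2 := by linarith
  set mx := max lam κ with hmx
  have hmax : mx < (1 - d * κ) / 2 := max_lt hlam hκ3
  have hmx1 : lam ≤ mx := le_max_left _ _
  have hmx2 : κ ≤ mx := le_max_right _ _
  set g0 := (1 - d * κ) / 2 - mx with hg0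
  have hg0pos : 0 < g0 := by rw [hg0]; linarith
  obtain ⟨lp, hlp⟩ : ∃ lp, lp = mx + g0 / 2 := ⟨_, rfl⟩
  obtain ⟨lam', hlam'⟩ : ∃ lam', lam' = mx + g0 / 4 := ⟨_, rfl⟩
  obtain ⟨al, hal⟩ : ∃ al, al = g0 / 4 := ⟨_, rfl⟩
  obtain ⟨e, he⟩ : ∃ e, e = g0 / 8 := ⟨_, rfl⟩
  obtain ⟨ep, hep⟩ : ∃ ep, ep = g0 / 4 := ⟨_, rfl⟩
  have hlp0 : 0 ≤ lp := by rw [hlp]; linarith
  have hal0 : 0 < al := by rw [hal]; linarith
  have he0 : 0 < e := by rw [he]; linarith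
  have hep0 : 0 < ep := by rw [hep]; linarith
  set C0 := 8 * Real.sqrt (3 ^ d * K) / q' with hC0
  have hC0pos : 0 ≤ C0 := by positivity
  have hlogd : 0 ≤ Real.log (2 * d) := by
    apply Real.log_nonneg
    linarith
  refine ⟨lam', e, ep, by rw [hlam']; linarith, he0, by rw [he, hep]; linarith,
    by rw [he, hlam']; linarith, ?_⟩
  intro q C hq
  have hq1 : (1 : ℝ) ≤ q := by exact_mod_cast hq
  obtain ⟨A, hA⟩ : ∃ A : ℝ, A = q * (4 + (2 * d + C)) := ⟨_, rfl⟩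
  have hA0 : 0 ≤ A := by rw [hA]; positivity
  have q1 := pow_dom (s := κ + al) (t := 1 - ep) (by rw [hal, hep]; linarith) (16 * A)
  have q1' := pow_dom (s := 0) (t := 1 - ep) (by rw [hep]; linarith) 8
  have q2 := pow_dom (s := lam') (t := lp) (by rw [hlam', hlp]; linarith) 3
  have q3 := pow_dom (s := κ + al + e) (t := lp) (by rw [hal, he, hlp]; linarith)
    (3 * (4 * β * A))
  have q4 := pow_dom (s := κ + al) (t := lp) (by rw [hal, hlp]; linarith)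
    (3 * (2 * A * Real.log (2 * d)))
  have q5 := pow_dom (s := -al) (t := 0) (by linarith) 6
  have q6 := pow_dom (s := al + (lp + d * κ / 2 - (1 - ep) / 2)) (t := 0)
    (by rw [hlp, hal, hep]; linarith) (6 * C0)
  filter_upwards [q1, q1', q2, q3, q4, q5, q6, eventually_ge_atTop 1]
    with n r1 r1' r2 r3 r4 r5 r6 hn
  have hn1 : (1 : ℝ) ≤ n := by exact_mod_cast hn
  have hn0 : (0 : ℝ) < n := by linarith
  set D := ⌊(n : ℝ) ^ κ⌋₊ with hD
  set M := ⌊(n : ℝ) ^ al⌋₊ with hM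
  set N := ⌊(n : ℝ) ^ ep⌋₊ with hN
  have hnκ1 : (1 : ℝ) ≤ (n : ℝ) ^ κ := Real.one_le_rpow hn1 hκ.le
  have hnal1 : (1 : ℝ) ≤ (n : ℝ) ^ al := Real.one_le_rpow hn1 hal0.le
  have hnep1 : (1 : ℝ) ≤ (n : ℝ) ^ ep := Real.one_le_rpow hn1 hep0.le
  have hD1 : 1 ≤ D := Nat.le_floor (by exact_mod_cast hnκ1)
  have hDle : (D : ℝ) ≤ (n : ℝ) ^ κ := Nat.floor_le (by positivity)
  have hMle : (M : ℝ) ≤ (n : ℝ) ^ al := Nat.floor_le (by positivity)
  have hMlt : (n : ℝ) ^ al < (M : ℝ) + 1 := Nat.lt_floor_add_one _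
  have hNle : (N : ℝ) ≤ (n : ℝ) ^ ep := Nat.floor_le (by positivity)
  have hNlt : (n : ℝ) ^ ep < (N : ℝ) + 1 := Nat.lt_floor_add_one _
  obtain ⟨T, hT⟩ : ∃ T, T = q * (4 * D * M + (2 * d + C) * D) := ⟨_, rfl⟩
  have hTle : (T : ℝ) ≤ A * (n : ℝ) ^ (κ + al) := by
    rw [hT, hA, Real.rpow_add hn0]
    push_cast
    have a1 : (D : ℝ) * M ≤ (n : ℝ) ^ κ * (n : ℝ) ^ al := by gcongr
    have a2 : (D : ℝ) ≤ (n : ℝ) ^ κ * (n : ℝ) ^ al := by
      calc (D : ℝ) ≤ (n : ℝ) ^ κ * 1 := by linarith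
        _ ≤ _ := by gcongr
    have a3 : (2 * (d : ℝ) + C) * D ≤ (2 * d + C) * ((n : ℝ) ^ κ * (n : ℝ) ^ al) := by gcongr
    have a4 : 4 * (D : ℝ) * M + (2 * d + C) * D ≤
        (4 + (2 * d + C)) * ((n : ℝ) ^ κ * (n : ℝ) ^ al) := by linarith
    calc (q : ℝ) * (4 * D * M + (2 * d + C) * D)
        ≤ q * ((4 + (2 * d + C)) * ((n : ℝ) ^ κ * (n : ℝ) ^ al)) :=
          mul_le_mul_of_nonneg_left a4 (by positivity)
      _ = _ := by ring
  set U := n / (N + 1) with hU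
  have hUlow : (n : ℝ) ^ (1 - ep) / 2 - 1 < U := by
    have h1 : n < (N + 1) * (n / (N + 1) + 1) := Nat.lt_mul_div_succ n (Nat.succ_pos N)
    have h2 : (n : ℝ) < ((N : ℝ) + 1) * ((U : ℝ) + 1) := by
      rw [hU]
      exact_mod_cast h1
    have h3 : (n : ℝ) = (n : ℝ) ^ (1 - ep) * (n : ℝ) ^ ep := by
      rw [← Real.rpow_add hn0]
      simp
    have h4 : ((N : ℝ) + 1) * ((U : ℝ) + 1) ≤ (2 * (n : ℝ) ^ ep) * ((U : ℝ) + 1) := by
      apply mul_le_mul_of_nonneg_right _ (by positivity)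
      linarith
    have h5 : (n : ℝ) ^ (1 - ep) * (n : ℝ) ^ ep < (2 * ((U : ℝ) + 1)) * (n : ℝ) ^ ep := by
      calc (n : ℝ) ^ (1 - ep) * (n : ℝ) ^ ep = n := h3.symm
        _ < ((N : ℝ) + 1) * ((U : ℝ) + 1) := h2
        _ ≤ (2 * (n : ℝ) ^ ep) * ((U : ℝ) + 1) := h4
        _ = _ := by ring
    have h6 := lt_of_mul_lt_mul_right h5 (by positivity)
    linarith
  rw [Real.rpow_zero] at r1' r5 r6
  have hTU : T + T ≤ U := by
    have : (T : ℝ) + T ≤ U := by linarith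
    exact_mod_cast this
  obtain ⟨m, hm'⟩ : ∃ m, U = T + (m + T) := ⟨U - (T + T), by omega⟩
  have hmR : (U : ℝ) = T + (m + T) := by exact_mod_cast hm'
  have hmn : (n : ℝ) ^ (1 - ep) / 4 ≤ m := by linarith
  have hm1 : 1 ≤ m := by
    have : (0 : ℝ) < m := by linarith
    exact_mod_cast this
  have hNl : (N + 1) * (T + (m + T)) ≤ n := by
    rw [← hm', hU]
    exact Nat.mul_div_le n (N + 1)
  set L := (n : ℝ) ^ lp with hL
  have hL1 : 1 ≤ L := Real.one_le_rpow hn1 hlp0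
  have hLcond : ∀ R : ℝ, R ≤ (n : ℝ) ^ e → -Real.log (Real.exp (-(n : ℝ) ^ lam')) +
      2 * (β * ((T + T : ℕ) * R)) + (T + T : ℕ) * Real.log (2 * d) ≤ L := by
    intro R hR
    rw [Real.log_exp, neg_neg]
    push_cast
    have s2 : 2 * (β * (((T : ℝ) + T) * R)) ≤
        4 * β * A * (n : ℝ) ^ (κ + al + e) := by
      rw [Real.rpow_add hn0 (κ + al) e]
      calc 2 * (β * (((T : ℝ) + T) * R))
          = 4 * β * (T * R) := by ring
        _ ≤ 4 * β * (T * (n : ℝ) ^ e) := by gcongr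
        _ ≤ 4 * β * ((A * (n : ℝ) ^ (κ + al)) * (n : ℝ) ^ e) := by gcongr
        _ = _ := by ring
    have s3 : ((T : ℝ) + T) * Real.log (2 * d) ≤
        2 * A * Real.log (2 * d) * (n : ℝ) ^ (κ + al) := by
      calc ((T : ℝ) + T) * Real.log (2 * d) = 2 * T * Real.log (2 * d) := by ring
        _ ≤ 2 * (A * (n : ℝ) ^ (κ + al)) * Real.log (2 * d) := by gcongr
        _ = _ := by ring
    linarith
  have hpb : 1 / ((M : ℝ) + 1) + M * ((2 * L + 2) * Real.sqrt ((2 * D + 1) ^ d * K) /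
      (q' * Real.sqrt m)) ≤ Real.exp (-1) := by
    have b3 := E_bound2 (d := d) (n := n) (D := D) (m := m) hn1 hKpos hqpos hlp0 hDle hnκ1 hmn
    have b4 : (1 : ℝ) / (M + 1) ≤ (n : ℝ) ^ (-al) := by
      rw [Real.rpow_neg hn0.le, ← one_div]
      apply one_div_le_one_div_of_le (by positivity) hMlt.le
    have b5 : (M : ℝ) * (C0 * (n : ℝ) ^ (lp + d * κ / 2 - (1 - ep) / 2)) ≤
        C0 * (n : ℝ) ^ (al + (lp + d * κ / 2 - (1 - ep) / 2)) := by
      rw [Real.rpow_add hn0 al]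
      calc (M : ℝ) * (C0 * (n : ℝ) ^ (lp + d * κ / 2 - (1 - ep) / 2))
          ≤ (n : ℝ) ^ al * (C0 * (n : ℝ) ^ (lp + d * κ / 2 - (1 - ep) / 2)) := by gcongr
        _ = _ := by ring
    have b6 : (M : ℝ) * ((2 * L + 2) * Real.sqrt ((2 * D + 1) ^ d * K) / (q' * Real.sqrt m)) ≤
        (M : ℝ) * (C0 * (n : ℝ) ^ (lp + d * κ / 2 - (1 - ep) / 2)) := by gcongr
    have b7 : (1 : ℝ) / 3 ≤ Real.exp (-1) := by
      rw [Real.exp_neg, ← one_div]
      apply one_div_le_one_div_of_le (Real.exp_pos _)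
      have := Real.exp_one_lt_d9
      linarith
    linarith
  exact ⟨D, M, N, T, m, L, hD, hD1, hT, hm1, hNl, hNlt.le, by linarith, hLcond, hpb⟩

variable {Ω : Type*} [MeasurableSpace Ω] {P : Measure Ω} [IsProbabilityMeasure P]

/-- all windows of lengths at least `n ^ a` in `[0, n]`, for a family of curves -/
theorem one_scale_loc {ω : ℕ → (Fin d → ℤ) → Ω → ℝ} (h : IsEnv P ω) (hd : 0 < d)
    (hexp : ∀ b : ℝ, Integrable (fun x => Real.exp (b * ω 1 0 x)) P)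
    (hnc : ¬ ∃ c : ℝ, ∀ᵐ x ∂P, ω 1 0 x = c) {β : ℝ} (hβ : 0 < β) {κ lam a : ℝ} (hκ : 0 < κ)
    (hκ2 : κ * (d + 2) < 1) (hlam : lam < (1 - d * κ) / 2) (ha : 0 < a) :
    ∃ c : ℝ, 0 < c ∧ ∀ q C : ℕ, 1 ≤ q → ∀ᶠ n : ℕ in atTop,
      ∀ G : Finset (ℕ × ℕ × (ℕ → Fin d → ℤ)), (G.card : ℝ) ≤ Real.exp ((n : ℝ) ^ c) →
      (∀ g ∈ G, Slow q C g.2.2 ∧ (n : ℝ) ^ a ≤ g.2.1 ∧ g.1 + g.2.1 ≤ n) →
      ∃ B : Set Ω, P.real B ≤ (n : ℝ) ^ (-2 : ℝ) ∧ ∀ x, x ∉ B → ∀ k, n ≤ k →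
        polymerProb β (fun i y => ω i y x) k
          {w | ∃ g ∈ G, ∀ i ≤ g.2.1,
            euclid (pos w (g.1 + i) - g.2.2 (g.1 + i)) ≤ (g.2.1 : ℝ) ^ κ} ≤
          Real.exp (-(n : ℝ) ^ (a * lam)) := by
  obtain ⟨aa, b, hab, hp, hm⟩ := exists_gap (h.meas 1 0) hexp hnc
  set K := 1 / (P.map (ω 1 0)).real (Set.Ici b) + 1 / (P.map (ω 1 0)).real (Set.Iic aa) with hK
  have hKpos : 0 < K := by positivity
  set q' := 1 - Real.exp (-(β * (b - aa))) with hq'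
  have hqpos : 0 < q' := by
    rw [hq']
    have : Real.exp (-(β * (b - aa))) < 1 := by
      rw [← Real.exp_zero]
      apply Real.exp_lt_exp.2
      have := mul_pos hβ (sub_pos.2 hab)
      linarith
    linarith
  set K1 := ∫ x, (Real.exp (ω 1 0 x) + Real.exp (-ω 1 0 x)) ∂P with hK1
  have hK1pos : 0 ≤ K1 := integral_nonneg (fun x => by positivity)
  obtain ⟨lam', e, ep, hlam', he0, hep, hel, hnum⟩ := numerics hd hKpos hqpos hβ hκ hκ2 hlam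
  have hae : 0 < a * e := mul_pos ha he0
  have hlam'0 : 0 < lam' := he0.trans hel
  have hep0 : 0 < ep := he0.trans hep
  refine ⟨a * e, hae, ?_⟩
  intro q C hq
  obtain ⟨l0, hl0⟩ := eventually_atTop.1 (hnum q C hq)
  choose! D M N T m L hL using hl0
  have q6 := (tendsto_npow ha).eventually_ge_atTop (l0 : ℝ)
  have q7 := G_dom (e := a * e) hae hK1pos d 2
  have q8 := G_dom (e := a * e) hae (K1 := 1) zero_le_one d 2
  have q9 := pow_dom (s := a * e) (t := a * ep) (mul_lt_mul_of_pos_left hep ha) 2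
  have q10 := pow_dom (s := a * e) (t := a * lam') (mul_lt_mul_of_pos_left hel ha) 2
  have q11 := pow_dom (s := a * lam) (t := a * lam') (mul_lt_mul_of_pos_left hlam' ha) 2
  filter_upwards [q6, q7, q8, q9, q10, q11, eventually_ge_atTop 1] with n r6 r7 r8 r9 r10 r11 hn
  intro G hGc hGs
  have hn1 : (1 : ℝ) ≤ n := by exact_mod_cast hn
  have hn0 : (0 : ℝ) < n := by linarith
  have hll : ∀ g ∈ G, l0 ≤ g.2.1 := by
    intro g hg
    have := r6.trans (hGs g hg).2.1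
    exact_mod_cast this
  have hpw : ∀ g ∈ G, ∀ t : ℝ, 0 ≤ t → (n : ℝ) ^ (a * t) ≤ (g.2.1 : ℝ) ^ t := by
    intro g hg t ht
    rw [Real.rpow_mul hn0.le]
    exact Real.rpow_le_rpow (by positivity) (hGs g hg).2.1 ht
  refine ⟨{x | ¬ Good (fun i y => ω i y x) n ((n : ℝ) ^ (a * e))} ∪
    ⋃ g ∈ G, badC' ω hd β g.2.2 (D g.2.1) (m g.2.1) (T g.2.1) (M g.2.1) (N g.2.1) g.1
      (L g.2.1), ?_, ?_⟩
  · have b1 := good_bound h hexp n ((n : ℝ) ^ (a * e))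
    have b2 : P.real (⋃ g ∈ G, badC' ω hd β g.2.2 (D g.2.1) (m g.2.1) (T g.2.1) (M g.2.1)
        (N g.2.1) g.1 (L g.2.1)) ≤
        Real.exp ((n : ℝ) ^ (a * e)) * Real.exp (-(n : ℝ) ^ (a * ep)) := by
      refine (measureReal_biUnion_finset_le _ _).trans ?_
      have b3 : ∀ g ∈ G, P.real (badC' ω hd β g.2.2 (D g.2.1) (m g.2.1) (T g.2.1) (M g.2.1)
          (N g.2.1) g.1 (L g.2.1)) ≤ Real.exp (-(n : ℝ) ^ (a * ep)) := by
        intro g hg
        obtain ⟨c1, c2, c3, c4, c5, c6, c7, c8, c9⟩ := hL g.2.1 (hll g hg)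
        refine (badC'_bound h hd hβ hab hp hm g.2.2 (T g.2.1) (M g.2.1) (N g.2.1) g.1 c2 c4
          (L := L g.2.1) (p := Real.exp (-1)) c7 (Real.exp_pos _).le c9).trans ?_
        rw [← Real.exp_nat_mul, Real.exp_le_exp]
        push_cast
        have := hpw g hg ep hep0.le
        linarith
      refine (Finset.sum_le_sum b3).trans ?_
      rw [Finset.sum_const, nsmul_eq_mul]
      exact mul_le_mul_of_nonneg_right hGc (Real.exp_pos _).le
    have b4 : Real.exp ((n : ℝ) ^ (a * e)) * Real.exp (-(n : ℝ) ^ (a * ep)) ≤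
        Real.exp (-(n : ℝ) ^ (a * e)) := by
      rw [← Real.exp_add, Real.exp_le_exp]
      linarith
    have b5 : 3 * Real.exp (-(n : ℝ) ^ (a * e)) ≤ (n : ℝ) ^ (-(2 : ℝ)) := by
      refine le_trans ?_ r8
      have u1 : (1 : ℝ) ≤ (n : ℝ) * (2 * n + 1) ^ d := by
        have : (1 : ℝ) ≤ (2 * (n : ℝ) + 1) ^ d := one_le_pow₀ (by linarith)
        nlinarith
      have u2 : 0 < Real.exp (-(n : ℝ) ^ (a * e)) := Real.exp_pos _
      rw [one_mul]
      have u3 : Real.exp (-(n : ℝ) ^ (a * e)) ≤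
          (n : ℝ) * (2 * n + 1) ^ d * Real.exp (-(n : ℝ) ^ (a * e)) :=
        le_mul_of_one_le_left u2.le u1
      linarith
    have b6 : 0 < (n : ℝ) ^ (-(2 : ℝ)) := by positivity
    refine (measureReal_union_le _ _).trans ?_
    linarith
  · intro x hx k hk
    simp only [Set.mem_union, Set.mem_ofPred_eq, not_or, not_not, Set.mem_iUnion, not_exists]
      at hx
    obtain ⟨hG, hbad⟩ := hx
    refine (polymerProb_union hd β _ k G
      (fun g => {w | ∀ i ≤ g.2.1,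
        euclid (pos w (g.1 + i) - g.2.2 (g.1 + i)) ≤ (g.2.1 : ℝ) ^ κ})).trans ?_
    have c1 : ∀ g ∈ G, polymerProb β (fun i y => ω i y x) k
        {w | ∀ i ≤ g.2.1, euclid (pos w (g.1 + i) - g.2.2 (g.1 + i)) ≤ (g.2.1 : ℝ) ^ κ} ≤
        Real.exp (-(n : ℝ) ^ (a * lam')) := by
      intro g hg
      obtain ⟨c1, c2, c3, c4, c5, c6, c7, c8, c9⟩ := hL g.2.1 (hll g hg)
      refine (good_curve' hd hβ (Real.exp_pos (-(g.2.1 : ℝ) ^ lam')) hq c2 c1 c3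
        (hGs g hg).1 c5 (hGs g hg).2.2 (c8 _ (hpw g hg e he0.le)) hG (hbad g hg) hk).trans ?_
      rw [Real.exp_le_exp]
      exact neg_le_neg (hpw g hg lam' hlam'0.le)
    refine (Finset.sum_le_sum c1).trans ?_
    rw [Finset.sum_const, nsmul_eq_mul]
    refine (mul_le_mul_of_nonneg_right hGc (Real.exp_pos _).le).trans ?_
    rw [← Real.exp_add, Real.exp_le_exp]
    linarith

end Pool.Agent.R800.DT
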