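import Pool.Agent.R800.DT.Loc2
import Pool.Agent.R800.DT.Fin

/-!
# Directed polymers and tubes around deterministic curves: almost sure statements, all windows
-/

set_option autoImplicit false

open MeasureTheory ProbabilityTheory Filter Topology
open Classical

namespace Pool.Agent.R800.DT

open TH967.DP

variable {d : ℕ} {Ω : Type*} [MeasurableSpace Ω] {P : Measure Ω} [IsProbabilityMeasure P]

/-- almost sure statement for a sequence of families of curves and windows -/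
theorem as_loc {ω : ℕ → (Fin d → ℤ) → Ω → ℝ} (h : IsEnv P ω) (hd : 0 < d)
    (hexp : ∀ b : ℝ, Integrable (fun x => Real.exp (b * ω 1 0 x)) P)
    (hnc : ¬ ∃ c : ℝ, ∀ᵐ x ∂P, ω 1 0 x = c) {β : ℝ} (hβ : 0 < β) {κ lam a : ℝ} (hκ : 0 < κ)
    (hκ2 : κ * (d + 2) < 1) (hlam : lam < (1 - d * κ) / 2) (ha : 0 < a) :
    ∃ c : ℝ, 0 < c ∧ ∀ q C : ℕ, 1 ≤ q → ∀ G : ℕ → Finset (ℕ × ℕ × (ℕ → Fin d → ℤ)),
      (∀ᶠ n : ℕ in atTop, ((G n).card : ℝ) ≤ Real.exp ((n : ℝ) ^ c)) →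
      (∀ n, ∀ g ∈ G n, Slow q C g.2.2 ∧ (n : ℝ) ^ a ≤ g.2.1 ∧ g.1 + g.2.1 ≤ n) →
      ∀ᵐ x ∂P, ∀ᶠ n : ℕ in atTop, ∀ k, n ≤ k →
        polymerProb β (fun i y => ω i y x) k
          {w | ∃ g ∈ G n, ∀ i ≤ g.2.1,
            euclid (pos w (g.1 + i) - g.2.2 (g.1 + i)) ≤ (g.2.1 : ℝ) ^ κ} ≤
          Real.exp (-(n : ℝ) ^ (a * lam)) := by
  obtain ⟨c, hc, hmain⟩ := one_scale_loc h hd hexp hnc hβ hκ hκ2 hlam ha
  refine ⟨c, hc, ?_⟩
  intro q C hq G hGc hGs
  have hev := (hmain q C hq).and hGc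
  obtain ⟨l0, hl0⟩ := eventually_atTop.1 hev
  have hex : ∀ n, l0 ≤ n → ∃ B : Set Ω, P.real B ≤ (n : ℝ) ^ (-2 : ℝ) ∧
      ∀ x, x ∉ B → ∀ k, n ≤ k → polymerProb β (fun i y => ω i y x) k
          {w | ∃ g ∈ G n, ∀ i ≤ g.2.1,
            euclid (pos w (g.1 + i) - g.2.2 (g.1 + i)) ≤ (g.2.1 : ℝ) ^ κ} ≤
          Real.exp (-(n : ℝ) ^ (a * lam)) :=
    fun n hn => (hl0 n hn).1 (G n) (hl0 n hn).2 (hGs n)
  choose! B hB using hex
  have hsum : ∑' k, P (B (k + l0)) ≠ ⊤ := by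
    have hle : ∀ k, P (B (k + l0)) ≤ ENNReal.ofReal (((k + l0 : ℕ) : ℝ) ^ (-2 : ℝ)) := by
      intro k
      rw [← ofReal_measureReal (μ := P) (s := B (k + l0))]
      exact ENNReal.ofReal_le_ofReal (hB (k + l0) (by omega)).1
    have hsm : Summable (fun k : ℕ => ((k + l0 : ℕ) : ℝ) ^ (-2 : ℝ)) :=
      (summable_nat_add_iff (f := fun k : ℕ => (k : ℝ) ^ (-2 : ℝ)) l0).2
        (Real.summable_nat_rpow.2 (by norm_num))
    exact ne_top_of_le_ne_top hsm.tsum_ofReal_ne_top (ENNReal.tsum_le_tsum hle)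
  filter_upwards [ae_eventually_notMem hsum] with x hx
  obtain ⟨k0, hk0⟩ := eventually_atTop.1 hx
  rw [eventually_atTop]
  refine ⟨k0 + l0, fun l hl n hn => ?_⟩
  have h1 := hk0 (l - l0) (by omega)
  have e : l - l0 + l0 = l := by omega
  rw [e] at h1
  exact (hB l (by omega)).2 x h1 n hn

/-- a curve that starts at `x` at time `s0` -/
def startC (x : Fin d → ℤ) (s0 : ℕ) (γ : ℕ → Fin d → ℤ) : ℕ → Fin d → ℤ :=
  fun i k => x k + γ (i - s0) k

lemma startC_slow {q C : ℕ} (hq : 1 ≤ q) {γ : ℕ → Fin d → ℤ} (h : Slow q C γ)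
    (x : Fin d → ℤ) (s0 : ℕ) : Slow q C (startC x s0 γ) := by
  intro s t
  obtain ⟨t', ht'⟩ : ∃ t', s + t - s0 = (s - s0) + t' := ⟨s + t - s0 - (s - s0), by omega⟩
  have htt : t' ≤ t := by omega
  have h1 := h (s - s0) t'
  have e : ∀ k, |startC x s0 γ (s + t) k - startC x s0 γ s k| =
      |γ (s - s0 + t') k - γ (s - s0) k| := by
    intro k
    unfold startC
    rw [ht']
    congr 1
    ring
  simp_rw [e]
  have h2 : (0 : ℤ) ≤ ((q : ℤ) - 1) * ((t : ℤ) - t') := by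
    apply mul_nonneg
    · have : (1 : ℤ) ≤ q := by exact_mod_cast hq
      linarith
    · have : (t' : ℤ) ≤ t := by exact_mod_cast htt
      linarith
  nlinarith

lemma abs_pos_le' {n : ℕ} (w : Fin n → Step d) {i : ℕ} (hi : i ≤ n) (k : Fin d) :
    |pos w i k| ≤ (i : ℤ) := by
  obtain ⟨r, rfl⟩ := Nat.exists_eq_add_of_le hi
  have e : w = Fin.append (fun j => w (Fin.castAdd r j)) (fun j => w (Fin.natAdd i j)) :=
    (Fin.append_castAdd_natAdd).symm
  rw [e, pos_append_left _ _ le_rfl]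
  exact abs_pos_le _ _ _

/-- all lines at once, in all windows -/
theorem as_lines_loc {ω : ℕ → (Fin d → ℤ) → Ω → ℝ} (h : IsEnv P ω) (hd : 0 < d)
    (hexp : ∀ b : ℝ, Integrable (fun x => Real.exp (b * ω 1 0 x)) P)
    (hnc : ¬ ∃ c : ℝ, ∀ᵐ x ∂P, ω 1 0 x = c) {β : ℝ} (hβ : 0 < β) {κ lam a : ℝ} (hκ : 0 < κ)
    (hκ2 : κ * (d + 2) < 1) (hlam : lam < (1 - d * κ) / 2) (ha : 0 < a) {θ : ℝ} (hθ : 0 < θ) :
    ∀ᵐ x ∂P, ∀ᶠ n : ℕ in atTop, ∀ k, n ≤ k →
        polymerProb β (fun i y => ω i y x) k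
          {w | ∃ s l : ℕ, (n : ℝ) ^ a ≤ l ∧ s + l ≤ n ∧ ∃ v : Fin d → ℝ, ∑ k, |v k| ≤ 1 - θ ∧
            ∀ i ≤ l, dist2 (pos w (s + i)) (fun k => pos w s k + i * v k) ≤ (l : ℝ) ^ κ} ≤
          Real.exp (-(n : ℝ) ^ (a * lam)) := by
  have hd1 : (1 : ℝ) ≤ d := by exact_mod_cast hd
  obtain ⟨κ', hκ', hκ'2, hlam'⟩ : ∃ κ', κ < κ' ∧ κ' * (d + 2) < 1 ∧
      lam < (1 - d * κ') / 2 := by
    obtain ⟨s, hs, hs1, hs2⟩ : ∃ s : ℝ, 0 < s ∧ s * (2 * (d + 2)) ≤ 1 - κ * (d + 2) ∧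
        s * (2 * (d + 2)) ≤ (1 - d * κ) / 2 - lam := by
      have hdd : (0 : ℝ) < 2 * (d + 2) := by positivity
      refine ⟨min (1 - κ * (d + 2)) ((1 - d * κ) / 2 - lam) / (2 * (d + 2)), ?_, ?_, ?_⟩
      · apply div_pos _ hdd
        apply lt_min <;> linarith
      · rw [div_mul_cancel₀ _ hdd.ne']
        exact min_le_left _ _
      · rw [div_mul_cancel₀ _ hdd.ne']
        exact min_le_right _ _
    refine ⟨κ + s, by linarith, ?_, ?_⟩
    · nlinarith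
    · nlinarith
  obtain ⟨c, hc, hmain⟩ := as_loc h hd hexp hnc hβ (hκ.trans hκ') hκ'2 hlam' ha
  obtain ⟨q, hq⟩ := exists_nat_gt (2 / θ)
  have hq0 : (0 : ℝ) < q := lt_trans (by positivity) hq
  have hq1 : 1 ≤ q := by exact_mod_cast hq0
  have hqθ : 2 < q * θ := by
    rw [div_lt_iff₀ hθ] at hq
    exact hq
  let bx : ℕ → Finset (Fin d → ℤ) := fun n =>
    Finset.Icc (fun _ : Fin d => -(n : ℤ)) (fun _ => (n : ℤ))
  let G : ℕ → Finset (ℕ × ℕ × (ℕ → Fin d → ℤ)) := fun n =>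
    (((Finset.range (n + 1) ×ˢ Finset.range (n + 1)) ×ˢ (bx n ×ˢ bx n)).filter
      (fun p => 1 ≤ p.1.2 ∧ (q : ℤ) * ∑ k, |p.2.2 k| + (p.1.2 : ℤ) ≤ (q : ℤ) * p.1.2 ∧
        (n : ℝ) ^ a ≤ p.1.2 ∧ p.1.1 + p.1.2 ≤ n)).image
      (fun p => (p.1.1, p.1.2, startC p.2.1 p.1.1 (lineC p.1.2 p.2.2)))
  have hcard : ∀ᶠ n : ℕ in atTop, ((G n).card : ℝ) ≤ Real.exp ((n : ℝ) ^ c) := by
    have q8 := G_dom (e := c) hc (K1 := 1) zero_le_one (2 + 2 * d) 0
    filter_upwards [q8, eventually_ge_atTop 1] with n r8 hn1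
    have hn1R : (1 : ℝ) ≤ n := by exact_mod_cast hn1
    have h1 : (G n).card ≤ (2 * n + 1) ^ (2 + 2 * d) := by
      simp only [G]
      refine Finset.card_image_le.trans ((Finset.card_filter_le _ _).trans ?_)
      rw [Finset.card_product, Finset.card_product, Finset.card_product, Finset.card_range]
      simp only [bx]
      rw [card_box]
      calc (n + 1) * (n + 1) * ((2 * n + 1) ^ d * (2 * n + 1) ^ d)
          ≤ (2 * n + 1) * (2 * n + 1) * ((2 * n + 1) ^ d * (2 * n + 1) ^ d) := by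
            gcongr <;> omega
        _ = (2 * n + 1) ^ (2 + 2 * d) := by ring
    have h2 : ((G n).card : ℝ) ≤ (2 * (n : ℝ) + 1) ^ (2 + 2 * d) := by exact_mod_cast h1
    rw [neg_zero, Real.rpow_zero, Real.exp_neg] at r8
    have h3 : (0 : ℝ) < Real.exp ((n : ℝ) ^ c) := Real.exp_pos _
    have h4 : (n : ℝ) * (2 * n + 1) ^ (2 + 2 * d) ≤ Real.exp ((n : ℝ) ^ c) := by
      have : (n : ℝ) * (2 * n + 1) ^ (2 + 2 * d) * (Real.exp ((n : ℝ) ^ c))⁻¹ ≤ 1 := by
        have : 0 ≤ (n : ℝ) * (2 * n + 1) ^ (2 + 2 * d) * (Real.exp ((n : ℝ) ^ c))⁻¹ := by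
          positivity
        linarith
      rw [← div_eq_mul_inv, div_le_one h3] at this
      exact this
    refine h2.trans (le_trans ?_ h4)
    have : (0 : ℝ) ≤ (2 * (n : ℝ) + 1) ^ (2 + 2 * d) := by positivity
    nlinarith
  have hslow : ∀ n, ∀ g ∈ G n, Slow q d g.2.2 ∧ (n : ℝ) ^ a ≤ g.2.1 ∧ g.1 + g.2.1 ≤ n := by
    intro n g hg
    simp only [G] at hg
    obtain ⟨p, hp, rfl⟩ := Finset.mem_image.1 hg
    obtain ⟨_, h1, h2, h3, h4⟩ := Finset.mem_filter.1 hp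
    exact ⟨startC_slow hq1 (lineC_slow h1 h2) _ _, h3, h4⟩
  have hfin := hmain q d hq1 G hcard hslow
  have p1 := pow_dom hκ' (3 * (d : ℝ))
  have p2 : ∀ᶠ l : ℕ in atTop, (q : ℝ) * d ≤ l := by
    obtain ⟨N, hN⟩ := exists_nat_ge ((q : ℝ) * d)
    filter_upwards [eventually_ge_atTop N] with l hl
    exact hN.trans (by exact_mod_cast hl)
  obtain ⟨l1, hl1⟩ := eventually_atTop.1 ((p1.and p2).and (eventually_ge_atTop 1))
  have p4 := (tendsto_npow ha).eventually_ge_atTop (l1 : ℝ)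
  filter_upwards [hfin] with x hx
  filter_upwards [hx, p4] with n hxn hp4
  intro K hK
  refine le_trans (polymerProb_mono hd β _ K ?_) (hxn K hK)
  intro w hw
  obtain ⟨s, l, hal, hsl, v, hv1, hv2⟩ := hw
  have hll1 : l1 ≤ l := by
    have := hp4.trans hal
    exact_mod_cast this
  obtain ⟨⟨r1, r2⟩, hl1'⟩ := hl1 l hll1
  have hl0 : (0 : ℝ) < l := by exact_mod_cast hl1'
  have hl1R : (1 : ℝ) ≤ l := by exact_mod_cast hl1'
  have hv3 : ∀ k, |v k| ≤ 1 := by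
    intro k
    have := Finset.single_le_sum (f := fun k => |v k|) (fun _ _ => abs_nonneg _)
      (Finset.mem_univ k)
    linarith
  refine ⟨(s, l, startC (pos w s) s (lineC l (fun k => ⌊(l : ℝ) * v k⌋))), ?_, ?_⟩
  · simp only [G]
    refine Finset.mem_image.2 ⟨((s, l), (pos w s, fun k => ⌊(l : ℝ) * v k⌋)), ?_, rfl⟩
    rw [Finset.mem_filter]
    refine ⟨?_, hl1', ?_, hal, hsl⟩
    · simp only [Finset.mem_product, Finset.mem_range, bx]
      refine ⟨⟨by omega, by omega⟩, mem_box.2 ?_, mem_box.2 ?_⟩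
      · intro k
        refine (abs_pos_le' w (by omega) k).trans ?_
        exact_mod_cast (by omega : s ≤ n)
      · intro k
        have h1 := abs_le.1 (hv3 k)
        have hlnz : (l : ℤ) ≤ n := by exact_mod_cast (by omega : l ≤ n)
        rw [abs_le]
        constructor
        · have : -(l : ℤ) ≤ ⌊(l : ℝ) * v k⌋ := by
            apply Int.le_floor.2
            push_cast
            nlinarith
          linarith
        · have : ⌊(l : ℝ) * v k⌋ ≤ ⌊((l : ℤ) : ℝ)⌋ := by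
            apply Int.floor_le_floor
            push_cast
            nlinarith
          rw [Int.floor_intCast] at this
          linarith
    · have h1 : ∀ k, |((⌊(l : ℝ) * v k⌋ : ℤ) : ℝ)| ≤ l * |v k| + 1 := by
        intro k
        have f1 := Int.floor_le ((l : ℝ) * v k)
        have f2 := Int.lt_floor_add_one ((l : ℝ) * v k)
        have f3 : |(l : ℝ) * v k| = l * |v k| := by rw [abs_mul, abs_of_pos hl0]
        rw [← f3]
        have f4 := le_abs_self ((l : ℝ) * v k)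
        have f5 := neg_abs_le ((l : ℝ) * v k)
        rw [abs_le]
        constructor <;> linarith
      have h2 : ∑ k, |((⌊(l : ℝ) * v k⌋ : ℤ) : ℝ)| ≤ l * (1 - θ) + d := by
        refine (Finset.sum_le_sum (fun k _ => h1 k)).trans ?_
        rw [Finset.sum_add_distrib, ← Finset.mul_sum]
        simp only [Finset.sum_const, Finset.card_univ, Fintype.card_fin, nsmul_eq_mul, mul_one]
        have := mul_le_mul_of_nonneg_left hv1 hl0.le
        linarith
      have h3 : (q : ℝ) * ∑ k, |((⌊(l : ℝ) * v k⌋ : ℤ) : ℝ)| + l ≤ q * l := by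
        have h4 := mul_le_mul_of_nonneg_left h2 hq0.le
        have h5 : 2 * (l : ℝ) ≤ (q * θ) * l := mul_le_mul_of_nonneg_right hqθ.le hl0.le
        nlinarith
      exact_mod_cast h3
  · intro i hi
    have hz : dist2 (pos w (s + i) - pos w s) (fun k => i * v k) ≤ (l : ℝ) ^ κ := by
      refine le_trans (le_of_eq ?_) (hv2 i hi)
      unfold dist2
      congr 1
      apply Finset.sum_congr rfl
      intro k _
      rw [Pi.sub_apply]
      push_cast
      ring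
    have e : pos w (s + i) - startC (pos w s) s (lineC l (fun k => ⌊(l : ℝ) * v k⌋)) (s + i) =
        (pos w (s + i) - pos w s) - lineC l (fun k => ⌊(l : ℝ) * v k⌋) i := by
      funext k
      unfold startC
      simp only [Pi.sub_apply, Nat.add_sub_cancel_left]
      ring
    simp only
    rw [e]
    refine (lineC_near hl1' v hi _ hz).trans ?_
    have h1 : (1 : ℝ) ≤ (l : ℝ) ^ κ := Real.one_le_rpow hl1R hκ.le
    refine le_trans ?_ r1
    nlinarith

/-- fluctuations around the chord, in all windows -/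
theorem as_chord_loc {ω : ℕ → (Fin d → ℤ) → Ω → ℝ} (h : IsEnv P ω) (hd : 0 < d)
    (hexp : ∀ b : ℝ, Integrable (fun x => Real.exp (b * ω 1 0 x)) P)
    (hnc : ¬ ∃ c : ℝ, ∀ᵐ x ∂P, ω 1 0 x = c) {β : ℝ} (hβ : 0 < β) {κ lam a : ℝ} (hκ : 0 < κ)
    (hκ2 : κ * (d + 2) < 1) (hlam : lam < (1 - d * κ) / 2) (ha : 0 < a) {θ : ℝ} (hθ : 0 < θ) :
    ∀ᵐ x ∂P, ∀ᶠ n : ℕ in atTop, ∀ k, n ≤ k →
        polymerProb β (fun i y => ω i y x) k
          {w | ∃ s l : ℕ, (n : ℝ) ^ a ≤ l ∧ s + l ≤ n ∧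
            ∑ k, |(pos w (s + l) k : ℝ) - pos w s k| ≤ (1 - θ) * l ∧
            ∀ i ≤ l, dist2 (pos w (s + i)) (fun k => pos w s k +
              (i : ℝ) / l * ((pos w (s + l) k : ℝ) - pos w s k)) ≤ (l : ℝ) ^ κ} ≤
          Real.exp (-(n : ℝ) ^ (a * lam)) := by
  filter_upwards [as_lines_loc h hd hexp hnc hβ hκ hκ2 hlam ha hθ] with x hx
  filter_upwards [hx, eventually_ge_atTop 1] with n hxn hn1
  intro K hK
  refine le_trans (polymerProb_mono hd β _ K ?_) (hxn K hK)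
  rintro w ⟨s, l, hal, hsl, hw1, hw2⟩
  have hn0 : (0 : ℝ) < n := by exact_mod_cast hn1
  have hl0 : (0 : ℝ) < l := lt_of_lt_of_le (by positivity) hal
  refine ⟨s, l, hal, hsl, fun k => ((pos w (s + l) k : ℝ) - pos w s k) / l, ?_, ?_⟩
  · have : ∀ k, |((pos w (s + l) k : ℝ) - pos w s k) / l| =
        |(pos w (s + l) k : ℝ) - pos w s k| / l := by
      intro k
      rw [abs_div, abs_of_pos hl0]
    simp_rw [this]
    rw [← Finset.sum_div, div_le_iff₀ hl0]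
    exact hw1
  · intro i hi
    have e : (fun k => (pos w s k : ℝ) + (i : ℝ) * (((pos w (s + l) k : ℝ) - pos w s k) / l)) =
        (fun k => (pos w s k : ℝ) + (i : ℝ) / l * ((pos w (s + l) k : ℝ) - pos w s k)) := by
      funext k
      ring
    rw [e]
    exact hw2 i hi

end Pool.Agent.R800.DT
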