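import Pool.Agent.R800.DT.Win

/-!
# Directed polymers and tubes around deterministic curves: probability bounds
-/

set_option autoImplicit false

open MeasureTheory ProbabilityTheory
open Classical

namespace Pool.Agent.R800.DT

open TH967.DP

variable {d : ℕ}

/-- the paths in the tube -/
abbrev TP (γ : ℕ → Fin d → ℤ) (D m t0 : ℕ) : Type :=
  {p : Box d D × (Fin m → Step d) // TC γ D m t0 p}

lemma tp_mem {γ : ℕ → Fin d → ℤ} {D m t0 : ℕ} (p : TP γ D m t0) (i : Fin m) :
    γ t0 + p.1.1.1 + pos p.1.2 (i.val + 1) - γ (t0 + (i.val + 1)) ∈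
      Finset.Icc (fun _ : Fin d => -(D : ℤ)) (fun _ => (D : ℤ)) :=
  mem_box.2 (fun k => p.2.2 (i.val + 1) (by have := i.isLt; omega) k)

/-- the block sites visited by a path in the tube -/
noncomputable def visT {γ : ℕ → Fin d → ℤ} {D m t0 : ℕ} (p : TP γ D m t0) :
    Finset (Blk d D m) :=
  Finset.univ.image (fun i : Fin m => (i, (⟨_, tp_mem p i⟩ : Box d D)))

lemma visT_inj {γ : ℕ → Fin d → ℤ} {D m t0 : ℕ} (p : TP γ D m t0) :
    Function.Injective (fun i : Fin m => (i, (⟨_, tp_mem p i⟩ : Box d D))) := by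
  intro i j h
  exact congrArg Prod.fst h

lemma card_visT {γ : ℕ → Fin d → ℤ} {D m t0 : ℕ} (p : TP γ D m t0) : (visT p).card = m := by
  unfold visT
  rw [Finset.card_image_of_injective _ (visT_inj p)]
  simp

lemma YY_visT (β : ℝ) (η : ℕ → (Fin d → ℤ) → ℝ) (γ : ℕ → Fin d → ℤ) (D m t0 : ℕ)
    (z : Fin d → ℤ) :
    YY β (visT (γ := γ) (D := D) (m := m) (t0 := t0))
      (fun s => η (t0 + (s.1.val + 1)) (γ (t0 + (s.1.val + 1)) + z + s.2.1)) =
      Real.log (coreZ β η γ D m t0 z) := by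
  unfold YY
  congr 1
  unfold ZZ coreZ
  rw [← Finset.sum_filter, Finset.sum_subtype
    (p := fun p : Box d D × (Fin m → Step d) => TC γ D m t0 p) _ (by intro x; simp)]
  apply Finset.sum_congr rfl
  intro p _
  congr 2
  unfold visT
  rw [Finset.sum_image (fun i _ j _ h => visT_inj p h)]
  unfold energy shift
  apply Finset.sum_congr rfl
  intro i _
  simp only
  congr 1
  abel

/-- the displacements of the competitors -/
def zj (hd : 0 < d) (D j : ℕ) : Fin d → ℤ := Pi.single ⟨0, hd⟩ ((4 * D * j : ℕ) : ℤ)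

lemma zj_zero (hd : 0 < d) (D : ℕ) : zj hd D 0 = 0 := by
  unfold zj
  simp

/-- embedding of the blocks of one window -/
def embT {M : ℕ} (hd : 0 < d) (γ : ℕ → Fin d → ℤ) (D m t0 : ℕ)
    (p : Fin (M + 1) × Blk d D m) : ℕ × (Fin d → ℤ) :=
  (t0 + (p.2.1.val + 1), γ (t0 + (p.2.1.val + 1)) + zj hd D p.1.val + p.2.2.1)

/-- embedding of the blocks of all windows -/
def embW {M N : ℕ} (hd : 0 < d) (γ : ℕ → Fin d → ℤ) (D m T : ℕ)
    (p : Fin (N + 1) × (Fin (M + 1) × Blk d D m)) : ℕ × (Fin d → ℤ) :=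
  embT hd γ D m (p.1.val * (T + (m + T)) + T) p.2

lemma embT_inj {M : ℕ} (hd : 0 < d) (γ : ℕ → Fin d → ℤ) {D : ℕ} (hD : 1 ≤ D) (m t0 : ℕ) :
    Function.Injective (embT (M := M) hd γ D m t0) := by
  rintro ⟨j, i, x⟩ ⟨j', i', x'⟩ h
  unfold embT at h
  simp only [Prod.mk.injEq] at h
  obtain ⟨h1, h2⟩ := h
  have hi : i = i' := Fin.ext (by omega)
  subst hi
  have h3 := congrFun h2 ⟨0, hd⟩
  simp only [Pi.add_apply, zj, Pi.single_eq_same] at h3
  have hx := abs_le.1 (mem_box.1 x.2 ⟨0, hd⟩)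
  have hx' := abs_le.1 (mem_box.1 x'.2 ⟨0, hd⟩)
  have hDz : (1 : ℤ) ≤ D := by exact_mod_cast hD
  have hjj : j = j' := by
    rcases lt_trichotomy j j' with hlt | heq | hgt
    · exfalso
      have : (j.val : ℤ) + 1 ≤ j'.val := by exact_mod_cast hlt
      push_cast at h3
      nlinarith [hx.1, hx.2, hx'.1, hx'.2]
    · exact heq
    · exfalso
      have : (j'.val : ℤ) + 1 ≤ j.val := by exact_mod_cast hgt
      push_cast at h3
      nlinarith [hx.1, hx.2, hx'.1, hx'.2]
  subst hjj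
  have hxx : x = x' := Subtype.ext (add_left_cancel h2)
  subst hxx
  rfl

lemma embW_inj {M N : ℕ} (hd : 0 < d) (γ : ℕ → Fin d → ℤ) {D : ℕ} (hD : 1 ≤ D) (m T : ℕ) :
    Function.Injective (embW (M := M) (N := N) hd γ D m T) := by
  rintro ⟨ν, p⟩ ⟨ν', p'⟩ h
  have h1 := congrArg Prod.fst h
  unfold embW embT at h1
  simp only at h1
  have hi := p.2.1.isLt
  have hi' := p'.2.1.isLt
  have hνν : ν = ν' := by
    rcases lt_trichotomy ν.val ν'.val with hlt | heq | hgt
    · exfalso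
      have : (ν.val + 1) * (T + (m + T)) ≤ ν'.val * (T + (m + T)) := Nat.mul_le_mul_right _ hlt
      rw [add_mul, one_mul] at this
      omega
    · exact Fin.ext heq
    · exfalso
      have : (ν'.val + 1) * (T + (m + T)) ≤ ν.val * (T + (m + T)) := Nat.mul_le_mul_right _ hgt
      rw [add_mul, one_mul] at this
      omega
  subst hνν
  have h2 : p = p' := embT_inj hd γ hD m _ h
  rw [h2]

/-- the law of the logarithm of a tube partition function -/
noncomputable def rhoT (β : ℝ) (γ : ℕ → Fin d → ℤ) (D m t0 : ℕ) (μ : Measure ℝ) : Measure ℝ :=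
  (Measure.pi (fun _ : Blk d D m => μ)).map
    (YY β (visT (γ := γ) (D := D) (m := m) (t0 := t0)))

lemma rhoT_conc {β : ℝ} (hβ : 0 < β) {μ : Measure ℝ} [IsProbabilityMeasure μ]
    {a b : ℝ} (hab : a < b) (hp : 0 < μ.real (Set.Ici b)) (hm : 0 < μ.real (Set.Iic a))
    {γ : ℕ → Fin d → ℤ} {D m t0 : ℕ} (hne : ∃ p, TC γ D m t0 p) (hmpos : 1 ≤ m) {L : ℝ}
    (hL : 0 ≤ L) (y : ℝ) :
    (rhoT β γ D m t0 μ).real (Set.Icc y (y + 2 * L)) ≤
      (2 * L + 2) * Real.sqrt ((2 * D + 1) ^ d *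
        (1 / μ.real (Set.Ici b) + 1 / μ.real (Set.Iic a))) /
        ((1 - Real.exp (-(β * (b - a)))) * Real.sqrt m) := by
  obtain ⟨w, hw⟩ := hne
  have hW : Nonempty (TP γ D m t0) := ⟨⟨w, hw⟩⟩
  have hcardpos : 0 < Fintype.card (Blk d D m) := by
    rw [card_blk]; positivity
  have hB : Nonempty (Blk d D m) := Fintype.card_pos_iff.1 hcardpos
  have h := anti_conc (ι := Blk d D m) μ hab hp hm hβ
    (visT (γ := γ) (D := D) (m := m) (t0 := t0))
    (fun w => card_visT w) (y := y) (L := 2 * L) (by linarith)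
  unfold rhoT
  rw [map_measureReal_apply (measurable_YY β _) measurableSet_Icc]
  rw [card_blk] at h
  set K := 1 / μ.real (Set.Ici b) + 1 / μ.real (Set.Iic a) with hK
  set q := 1 - Real.exp (-(β * (b - a))) with hq
  have hqpos : 0 < q := by
    rw [hq]
    have : Real.exp (-(β * (b - a))) < 1 := by
      rw [← Real.exp_zero]
      apply Real.exp_lt_exp.2
      have := mul_pos hβ (sub_pos.2 hab)
      linarith
    linarith
  have hmR : (0 : ℝ) < m := by exact_mod_cast hmpos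
  have hsq : 0 < Real.sqrt m := Real.sqrt_pos.2 hmR
  have hsq2 : Real.sqrt m * Real.sqrt m = m := Real.mul_self_sqrt hmR.le
  have e : Real.sqrt (((m * (2 * D + 1) ^ d : ℕ) : ℝ) * K) =
      Real.sqrt m * Real.sqrt ((2 * D + 1) ^ d * K) := by
    push_cast
    rw [mul_assoc, Real.sqrt_mul hmR.le]
  rw [e] at h
  rw [le_div_iff₀ (by positivity)]
  set X := (Measure.pi fun _ : Blk d D m => μ).real
    (YY β (visT (γ := γ) (D := D) (m := m) (t0 := t0)) ⁻¹' Set.Icc y (y + 2 * L)) with hX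
  set S := Real.sqrt ((2 * D + 1) ^ d * K) with hS
  have h2 : Real.sqrt m * (X * (q * Real.sqrt m)) ≤ Real.sqrt m * ((2 * L + 2) * S) := by
    calc Real.sqrt m * (X * (q * Real.sqrt m)) = (Real.sqrt m * Real.sqrt m) * q * X := by ring
      _ = m * q * X := by rw [hsq2]
      _ ≤ (2 * L + 2) * (Real.sqrt m * S) := h
      _ = Real.sqrt m * ((2 * L + 2) * S) := by ring
  exact le_of_mul_le_mul_left h2 hsq

variable {Ω : Type*} [MeasurableSpace Ω] {P : Measure Ω} [IsProbabilityMeasure P]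

/-- the logarithms of the tube partition functions of one window -/
noncomputable def YT (ω : ℕ → (Fin d → ℤ) → Ω → ℝ) (hd : 0 < d) (β : ℝ) (γ : ℕ → Fin d → ℤ)
    (D m t0 M : ℕ) (x : Ω) (j : Fin (M + 1)) : ℝ :=
  Real.log (coreZ β (fun i y => ω i y x) γ D m t0 (zj hd D j.val))

/-- one window -/
lemma win1 {ω : ℕ → (Fin d → ℤ) → Ω → ℝ} (h : IsEnv P ω) (hd : 0 < d) {β : ℝ}
    (hβ : 0 < β) {a b : ℝ} (hab : a < b) (hp : 0 < (P.map (ω 1 0)).real (Set.Ici b))
    (hm : 0 < (P.map (ω 1 0)).real (Set.Iic a)) {γ : ℕ → Fin d → ℤ} {D m t0 : ℕ} (M : ℕ)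
    (hne : ∃ p, TC γ D m t0 p) (hD : 1 ≤ D) (hmpos : 1 ≤ m) {L : ℝ} (hL0 : 0 ≤ L) :
    P.real {x | ∀ j, YT ω hd β γ D m t0 M x j - L ≤ YT ω hd β γ D m t0 M x 0} ≤
      1 / (M + 1) + M * ((2 * L + 2) * Real.sqrt ((2 * D + 1) ^ d *
        (1 / (P.map (ω 1 0)).real (Set.Ici b) + 1 / (P.map (ω 1 0)).real (Set.Iic a))) /
        ((1 - Real.exp (-(β * (b - a)))) * Real.sqrt m)) := by
  have hprob : IsProbabilityMeasure (P.map (ω 1 0)) :=
    Measure.isProbabilityMeasure_map (h.meas 1 0).aemeasurable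
  have h1 := law2 h (embT_inj (M := M) hd γ hD m t0)
  have h2 := Measure.pi_map_pi (μ := fun _ : Fin (M + 1) =>
    Measure.pi (fun _ : Blk d D m => P.map (ω 1 0)))
    (f := fun _ => YY β (visT (γ := γ) (D := D) (m := m) (t0 := t0)))
    (fun _ => (measurable_YY β _).aemeasurable)
  have hm1 : Measurable (fun (a : Ω) (j : Fin (M + 1)) (k : Blk d D m) =>
      ω (embT hd γ D m t0 (j, k)).1 (embT hd γ D m t0 (j, k)).2 a) := by
    rw [measurable_pi_iff]
    intro j
    rw [measurable_pi_iff]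
    intro k
    exact h.meas _ _
  have hm2 : Measurable (fun (x : Fin (M + 1) → (Blk d D m → ℝ)) (i : Fin (M + 1)) =>
      YY β (visT (γ := γ) (D := D) (m := m) (t0 := t0)) (x i)) := by
    rw [measurable_pi_iff]
    intro i
    exact (measurable_YY β _).comp (measurable_pi_apply i)
  have e0 : (fun x => YT ω hd β γ D m t0 M x) =
      (fun (x : Fin (M + 1) → (Blk d D m → ℝ)) (i : Fin (M + 1)) =>
      YY β (visT (γ := γ) (D := D) (m := m) (t0 := t0)) (x i)) ∘
      (fun (a : Ω) (j : Fin (M + 1)) (k : Blk d D m) =>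
      ω (embT hd γ D m t0 (j, k)).1 (embT hd γ D m t0 (j, k)).2 a) := by
    funext x j
    unfold YT
    rw [← YY_visT]
    rfl
  have hYm : Measurable (fun x => YT ω hd β γ D m t0 M x) := by
    rw [e0]
    exact hm2.comp hm1
  have hlaw : P.map (fun x => YT ω hd β γ D m t0 M x) =
      Measure.pi (fun _ : Fin (M + 1) => rhoT β γ D m t0 (P.map (ω 1 0))) := by
    unfold rhoT
    rw [← h2, ← h1, Measure.map_map hm2 hm1, e0]
  have hS : MeasurableSet {y : Fin (M + 1) → ℝ | ∀ j, y j - L ≤ y 0} := by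
    have : {y : Fin (M + 1) → ℝ | ∀ j, y j - L ≤ y 0} =
        ⋂ j, {y : Fin (M + 1) → ℝ | y j - L ≤ y 0} := by
      ext y; simp
    rw [this]
    apply MeasurableSet.iInter
    intro j
    exact measurableSet_le ((measurable_pi_apply j).sub measurable_const) (measurable_pi_apply 0)
  have e : P.real {x | ∀ j, YT ω hd β γ D m t0 M x j - L ≤ YT ω hd β γ D m t0 M x 0} =
      (P.map (fun x => YT ω hd β γ D m t0 M x)).real
        {y : Fin (M + 1) → ℝ | ∀ j, y j - L ≤ y 0} := by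
    rw [map_measureReal_apply hYm hS]
    rfl
  rw [e, hlaw]
  have hrho : IsProbabilityMeasure (rhoT β γ D m t0 (P.map (ω 1 0))) := by
    unfold rhoT
    exact Measure.isProbabilityMeasure_map (measurable_YY β _).aemeasurable
  exact iid_max _ (fun y => rhoT_conc hβ hab hp hm hne hmpos hL0 y)

/-- all windows -/
lemma winN {ω : ℕ → (Fin d → ℤ) → Ω → ℝ} (h : IsEnv P ω) (hd : 0 < d) {β : ℝ}
    {γ : ℕ → Fin d → ℤ} {D m T M N : ℕ} (hD : 1 ≤ D) {L p : ℝ}
    (hwin : ∀ ν : Fin (N + 1), P.real {x | ∀ j : Fin (M + 1),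
      YT ω hd β γ D m (ν.val * (T + (m + T)) + T) M x j - L ≤
      YT ω hd β γ D m (ν.val * (T + (m + T)) + T) M x 0} ≤ p) :
    P.real {x | ∀ ν : Fin (N + 1), ∀ j : Fin (M + 1),
      YT ω hd β γ D m (ν.val * (T + (m + T)) + T) M x j - L ≤
      YT ω hd β γ D m (ν.val * (T + (m + T)) + T) M x 0} ≤ p ^ (N + 1) := by
  have hprob : IsProbabilityMeasure (P.map (ω 1 0)) :=
    Measure.isProbabilityMeasure_map (h.meas 1 0).aemeasurable
  let E : Fin (N + 1) → Set (Fin (M + 1) × Blk d D m → ℝ) := fun ν => {y | ∀ j : Fin (M + 1),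
    YY β (visT (γ := γ) (D := D) (m := m) (t0 := ν.val * (T + (m + T)) + T))
      (fun s => y (j, s)) - L ≤
    YY β (visT (γ := γ) (D := D) (m := m) (t0 := ν.val * (T + (m + T)) + T))
      (fun s => y (0, s))}
  have hEm : ∀ ν, MeasurableSet (E ν) := by
    intro ν
    have : E ν = ⋂ j : Fin (M + 1), {y | YY β (visT (γ := γ) (D := D) (m := m)
        (t0 := ν.val * (T + (m + T)) + T)) (fun s => y (j, s)) - L ≤
        YY β (visT (γ := γ) (D := D) (m := m) (t0 := ν.val * (T + (m + T)) + T))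
        (fun s => y (0, s))} := by
      ext y
      simp [E]
    rw [this]
    apply MeasurableSet.iInter
    intro j
    apply measurableSet_le
    · exact ((measurable_YY β _).comp
        (measurable_pi_iff.2 (fun s => measurable_pi_apply (j, s)))).sub measurable_const
    · exact (measurable_YY β _).comp
        (measurable_pi_iff.2 (fun s => measurable_pi_apply (0, s)))
  have hl := law2 h (embW_inj (M := M) (N := N) hd γ hD m T)
  have hmW : Measurable (fun (a : Ω) (ν : Fin (N + 1)) (k : Fin (M + 1) × Blk d D m) =>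
      ω (embW hd γ D m T (ν, k)).1 (embW hd γ D m T (ν, k)).2 a) := by
    rw [measurable_pi_iff]
    intro ν
    rw [measurable_pi_iff]
    intro k
    exact h.meas _ _
  have hset : {x | ∀ ν : Fin (N + 1), ∀ j : Fin (M + 1),
      YT ω hd β γ D m (ν.val * (T + (m + T)) + T) M x j - L ≤
      YT ω hd β γ D m (ν.val * (T + (m + T)) + T) M x 0} =
      (fun (a : Ω) (ν : Fin (N + 1)) (k : Fin (M + 1) × Blk d D m) =>
      ω (embW hd γ D m T (ν, k)).1 (embW hd γ D m T (ν, k)).2 a) ⁻¹' (Set.pi Set.univ E) := by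
    ext x
    simp only [Set.mem_preimage, Set.mem_pi, Set.mem_univ, forall_const, Set.mem_ofPred_eq, E]
    apply forall_congr'
    intro ν
    apply forall_congr'
    intro j
    unfold YT
    rw [← YY_visT, ← YY_visT]
    rfl
  have hPE : ∀ ν, ((Measure.pi (fun _ : Fin (M + 1) × Blk d D m => P.map (ω 1 0)))
      (E ν)).toReal ≤ p := by
    intro ν
    have h1 := law1 h (embT_inj (M := M) hd γ hD m (ν.val * (T + (m + T)) + T))
    have hm1 : Measurable (fun (a : Ω) (k : Fin (M + 1) × Blk d D m) =>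
        ω (embT hd γ D m (ν.val * (T + (m + T)) + T) k).1
          (embT hd γ D m (ν.val * (T + (m + T)) + T) k).2 a) := by
      rw [measurable_pi_iff]
      intro k
      exact h.meas _ _
    have e : P.real {x | ∀ j : Fin (M + 1),
      YT ω hd β γ D m (ν.val * (T + (m + T)) + T) M x j - L ≤
      YT ω hd β γ D m (ν.val * (T + (m + T)) + T) M x 0} =
      (Measure.pi (fun _ : Fin (M + 1) × Blk d D m => P.map (ω 1 0))).real (E ν) := by
      rw [← h1, map_measureReal_apply hm1 (hEm ν)]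
      congr 1
      ext x
      simp only [Set.mem_preimage, Set.mem_ofPred_eq, E]
      apply forall_congr'
      intro j
      unfold YT
      rw [← YY_visT, ← YY_visT]
      rfl
    have := hwin ν
    rw [e] at this
    exact this
  rw [hset, ← map_measureReal_apply hmW (MeasurableSet.univ_pi hEm), hl, measureReal_def,
    Measure.pi_pi, ENNReal.toReal_prod]
  calc ∏ ν : Fin (N + 1), ((Measure.pi (fun _ : Fin (M + 1) × Blk d D m => P.map (ω 1 0)))
      (E ν)).toReal ≤ ∏ _ν : Fin (N + 1), p :=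
        Finset.prod_le_prod (fun ν _ => ENNReal.toReal_nonneg) (fun ν _ => hPE ν)
    _ = p ^ (N + 1) := by
        rw [Finset.prod_const, Finset.card_univ, Fintype.card_fin]

end Pool.Agent.R800.DT
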