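import Pool.Agent.R800.DT.Prob
import Pool.Agent.TH967.DP.AS

/-!
# Directed polymers and tubes around deterministic curves: one scale, deterministic part
-/

set_option autoImplicit false

open MeasureTheory ProbabilityTheory Filter Topology
open Classical

namespace Pool.Agent.R800.DT

open TH967.DP

variable {d : ℕ}

/-- curves of speed at most `1 - 1/q`, up to the constant `C` -/
def Slow (q C : ℕ) (γ : ℕ → Fin d → ℤ) : Prop :=
  ∀ s t : ℕ, (q : ℤ) * ∑ k, |γ (s + t) k - γ s k| + (t : ℤ) ≤ (q : ℤ) * t + (q : ℤ) * C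

lemma l1_zj (hd : 0 < d) (D j : ℕ) : ∑ k, |zj hd D j k| = ((4 * D * j : ℕ) : ℤ) := by
  unfold zj
  rw [Finset.sum_eq_single ⟨0, hd⟩]
  · rw [Pi.single_eq_same, abs_of_nonneg (by positivity)]
  · intro k _ hk
    rw [Pi.single_eq_of_ne hk]
    simp
  · simp

lemma par_zj (hd : 0 < d) (D j : ℕ) : par (zj hd D j) = 0 := by
  unfold par zj
  rw [Finset.sum_eq_single ⟨0, hd⟩]
  · rw [Pi.single_eq_same]
    push_cast
    have : (4 : ZMod 2) = 0 := by decide
    rw [this]
    ring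
  · intro k _ hk
    rw [Pi.single_eq_of_ne hk]
    simp
  · simp

lemma geo (hd : 0 < d) {q C D M j T : ℕ} (hq : 1 ≤ q) (hD : 1 ≤ D) (hj : j ≤ M)
    (hT : T = q * (4 * D * M + (2 * d + C) * D)) {γ : ℕ → Fin d → ℤ} (hγ : Slow q C γ)
    {t : ℕ} {x y : Fin d → ℤ} (hx : InTube γ D t x) (hy : InTube γ D (t + T) y) :
    ∑ k, |(y + zj hd D j - x) k| ≤ (T : ℤ) ∧ ∑ k, |(y - (x + zj hd D j)) k| ≤ (T : ℤ) := by
  have hz := l1_zj hd D j
  have hs := hγ t T
  set G := ∑ k, |γ (t + T) k - γ t k| with hG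
  have hb : ∀ S : ℤ, S ≤ ∑ k, ((D : ℤ) + |γ (t + T) k - γ t k| + D + |zj hd D j k|) →
      S ≤ (T : ℤ) := by
    intro S hS
    rw [Finset.sum_add_distrib, Finset.sum_add_distrib, Finset.sum_add_distrib, hz, ← hG] at hS
    simp only [Finset.sum_const, Finset.card_univ, Fintype.card_fin, nsmul_eq_mul] at hS
    have hTz : (T : ℤ) = q * (4 * D * M + (2 * d + C) * D) := by
      rw [hT]
      push_cast
      ring
    have hqz : (1 : ℤ) ≤ q := by exact_mod_cast hq
    have hDz : (1 : ℤ) ≤ D := by exact_mod_cast hD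
    have hjz : (j : ℤ) ≤ M := by exact_mod_cast hj
    have hCz : (0 : ℤ) ≤ C := by positivity
    have hdz : (0 : ℤ) ≤ d := by positivity
    have h1 : (4 * D * j : ℤ) ≤ 4 * D * M := by
      apply mul_le_mul_of_nonneg_left hjz (by positivity)
    have h2 : (C : ℤ) ≤ C * D := by nlinarith
    push_cast at hS
    have h3 : (q : ℤ) * S ≤ q * T := by
      have h4 : (q : ℤ) * S ≤ q * (d * D + G + d * D + 4 * D * j) :=
        mul_le_mul_of_nonneg_left hS (by positivity)
      have h5 : (q : ℤ) * (d * D + d * D + 4 * D * j + C) ≤ T := by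
        rw [hTz]
        apply mul_le_mul_of_nonneg_left _ (by positivity)
        linarith
      linarith
    exact le_of_mul_le_mul_left h3 (by linarith)
  constructor
  · apply hb
    apply Finset.sum_le_sum
    intro k _
    have h1 := hx k
    have h2 := hy k
    have e : (y + zj hd D j - x) k = (y k - γ (t + T) k) + (γ (t + T) k - γ t k) +
        (-(x k - γ t k)) + zj hd D j k := by
      simp only [Pi.sub_apply, Pi.add_apply]
      ring
    rw [e]
    have a1 := abs_add_le ((y k - γ (t + T) k) + (γ (t + T) k - γ t k) + (-(x k - γ t k)))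
      (zj hd D j k)
    have a2 := abs_add_le ((y k - γ (t + T) k) + (γ (t + T) k - γ t k)) (-(x k - γ t k))
    have a3 := abs_add_le (y k - γ (t + T) k) (γ (t + T) k - γ t k)
    rw [abs_neg] at a2
    linarith
  · apply hb
    apply Finset.sum_le_sum
    intro k _
    have h1 := hx k
    have h2 := hy k
    have e : (y - (x + zj hd D j)) k = (y k - γ (t + T) k) + (γ (t + T) k - γ t k) +
        (-(x k - γ t k)) + (-zj hd D j k) := by
      simp only [Pi.sub_apply, Pi.add_apply]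
      ring
    rw [e]
    have a1 := abs_add_le ((y k - γ (t + T) k) + (γ (t + T) k - γ t k) + (-(x k - γ t k)))
      (-zj hd D j k)
    have a2 := abs_add_le ((y k - γ (t + T) k) + (γ (t + T) k - γ t k)) (-(x k - γ t k))
    have a3 := abs_add_le (y k - γ (t + T) k) (γ (t + T) k - γ t k)
    rw [abs_neg] at a2
    rw [abs_neg (zj hd D j k)] at a1
    linarith

variable {Ω : Type*} [MeasurableSpace Ω] {P : Measure Ω} [IsProbabilityMeasure P]

/-- the bad event of a curve -/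
def badC (ω : ℕ → (Fin d → ℤ) → Ω → ℝ) (hd : 0 < d) (β : ℝ) (γ : ℕ → Fin d → ℤ)
    (D m T M N : ℕ) (L : ℝ) : Set Ω :=
  {x | (∀ ν : Fin (N + 1), ∃ p, TC γ D m (ν.val * (T + (m + T)) + T) p) ∧
    ∀ ν : Fin (N + 1), ∀ j : Fin (M + 1),
      YT ω hd β γ D m (ν.val * (T + (m + T)) + T) M x j - L ≤
      YT ω hd β γ D m (ν.val * (T + (m + T)) + T) M x 0}

lemma badC_bound {ω : ℕ → (Fin d → ℤ) → Ω → ℝ} (h : IsEnv P ω) (hd : 0 < d) {β : ℝ}
    (hβ : 0 < β) {a b : ℝ} (hab : a < b) (hp : 0 < (P.map (ω 1 0)).real (Set.Ici b))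
    (hm : 0 < (P.map (ω 1 0)).real (Set.Iic a)) (γ : ℕ → Fin d → ℤ) {D m : ℕ} (T M N : ℕ)
    (hD : 1 ≤ D) (hmpos : 1 ≤ m) {L p : ℝ} (hL0 : 0 ≤ L) (hp0 : 0 ≤ p)
    (hpb : 1 / ((M : ℝ) + 1) + M * ((2 * L + 2) * Real.sqrt ((2 * D + 1) ^ d *
        (1 / (P.map (ω 1 0)).real (Set.Ici b) + 1 / (P.map (ω 1 0)).real (Set.Iic a))) /
        ((1 - Real.exp (-(β * (b - a)))) * Real.sqrt m)) ≤ p) :
    P.real (badC ω hd β γ D m T M N L) ≤ p ^ (N + 1) := by
  by_cases hne : ∀ ν : Fin (N + 1), ∃ p, TC γ D m (ν.val * (T + (m + T)) + T) p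
  · refine le_trans (measureReal_mono ?_ (measure_ne_top _ _))
      (winN h hd (γ := γ) (m := m) (T := T) (M := M) (N := N) (β := β) hD (L := L) (p := p)
        (fun ν => (win1 h hd hβ hab hp hm M (hne ν) hD hmpos hL0).trans hpb))
    intro x hx
    exact hx.2
  · have : badC ω hd β γ D m T M N L = ∅ := by
      ext x
      simp only [Set.mem_empty_iff_false, iff_false]
      intro hx
      exact hne hx.1
    rw [this]
    simp only [measureReal_empty]
    positivity

lemma good_curve {ω : ℕ → (Fin d → ℤ) → Ω → ℝ} (hd : 0 < d) {β R δ L ρ : ℝ} (hβ : 0 < β)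
    (hδ : 0 < δ) {q C D M T m N l : ℕ} (hq : 1 ≤ q) (hD1 : 1 ≤ D) (hD : D = ⌊ρ⌋₊)
    (hT : T = q * (4 * D * M + (2 * d + C) * D)) {γ : ℕ → Fin d → ℤ} (hγ : Slow q C γ)
    (hNl : (N + 1) * (T + (m + T)) ≤ l)
    (hL : -Real.log δ + 2 * (β * ((T + T : ℕ) * R)) + (T + T : ℕ) * Real.log (2 * d) ≤ L)
    {x : Ω} (hG : Good (fun i y => ω i y x) l R) (hx : x ∉ badC ω hd β γ D m T M N L)
    {n : ℕ} (hn : l ≤ n) :
    polymerProb β (fun i y => ω i y x) n {w | ∀ i ≤ l, euclid (pos w i - γ i) ≤ ρ} ≤ δ := by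
  have hνl : ∀ ν : Fin (N + 1), ν.val * (T + (m + T)) + (T + (m + T)) ≤ l := by
    intro ν
    have : (ν.val + 1) * (T + (m + T)) ≤ (N + 1) * (T + (m + T)) :=
      Nat.mul_le_mul_right _ (by have := ν.isLt; omega)
    rw [add_mul, one_mul] at this
    omega
  unfold badC at hx
  simp only [Set.mem_ofPred_eq, not_and_or, not_forall, not_le] at hx
  rcases hx with ⟨ν, hν⟩ | ⟨ν, j, hν⟩
  · refine polymer_tube hd hβ hδ hG hD (par_zj hd D 0) (hνl ν)
      (fun t x y h1 h2 => (geo hd hq hD1 (Nat.zero_le M) hT hγ h1 h2).1)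
      (fun t x y h1 h2 => (geo hd hq hD1 (Nat.zero_le M) hT hγ h1 h2).2) hL
      (fun hex => absurd hex hν) hn
  · refine polymer_tube hd hβ hδ hG hD (par_zj hd D j.val) (hνl ν)
      (fun t x y h1 h2 => (geo hd hq hD1 (by have := j.isLt; omega : j.val ≤ M) hT hγ h1 h2).1)
      (fun t x y h1 h2 => (geo hd hq hD1 (by have := j.isLt; omega : j.val ≤ M) hT hγ h1 h2).2) hL
      (fun _ => ?_) hn
    unfold YT at hν
    have e : ((0 : Fin (M + 1)).val) = 0 := rfl
    rw [e, zj_zero] at hν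
    exact hν

lemma polymerProb_union (hd : 0 < d) (β : ℝ) (η : ℕ → (Fin d → ℤ) → ℝ) (n : ℕ)
    {ι : Type*} (G : Finset ι) (A : ι → Set (Fin n → Step d)) :
    polymerProb β η n {w | ∃ g ∈ G, w ∈ A g} ≤ ∑ g ∈ G, polymerProb β η n (A g) := by
  simp_rw [polymerProb_eq hd]
  rw [← Finset.sum_div]
  apply div_le_div_of_nonneg_right _ (ZF_pos hd β η n).le
  rw [Finset.sum_comm]
  apply Finset.sum_le_sum
  intro w _
  have hnn : ∀ g, 0 ≤ (A g).indicator (fun w => Real.exp (β * energy η w)) w :=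
    fun g => Set.indicator_nonneg (fun _ _ => (Real.exp_pos _).le) _
  by_cases hw : w ∈ {w | ∃ g ∈ G, w ∈ A g}
  · rw [Set.indicator_of_mem hw]
    obtain ⟨g, hg, hwg⟩ := hw
    refine le_trans (le_of_eq ?_) (Finset.single_le_sum (f := fun g =>
      (A g).indicator (fun w => Real.exp (β * energy η w)) w) (fun g _ => hnn g) hg)

    rw [Set.indicator_of_mem hwg]
  · rw [Set.indicator_of_notMem hw]
    exact Finset.sum_nonneg (fun g _ => hnn g)

end Pool.Agent.R800.DT
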