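import Pool.Agent.R800.DT.Det

/-!
# Directed polymers and tubes around deterministic curves: one window
-/

set_option autoImplicit false

open Classical

namespace Pool.Agent.R800.DT

open TH967.DP

variable {d : ℕ}

lemma coreZ_pos {β : ℝ} {η : ℕ → (Fin d → ℤ) → ℝ} {γ : ℕ → Fin d → ℤ} {D m t0 : ℕ}
    {z : Fin d → ℤ} (h : ∃ p, TC γ D m t0 p) : 0 < coreZ β η γ D m t0 z := by
  obtain ⟨p, hp⟩ := h
  unfold coreZ
  apply Finset.sum_pos'
  · intro q _
    split_ifs
    · positivity
    · exact le_rfl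
  · exact ⟨p, Finset.mem_univ _, by rw [if_pos hp]; positivity⟩

lemma coreZ_zero {β : ℝ} {η : ℕ → (Fin d → ℤ) → ℝ} {γ : ℕ → Fin d → ℤ} {D m t0 : ℕ}
    {z : Fin d → ℤ} (h : ¬ ∃ p, TC γ D m t0 p) : coreZ β η γ D m t0 z = 0 := by
  unfold coreZ
  apply Finset.sum_eq_zero
  intro p _
  rw [if_neg (fun hp => h ⟨p, hp⟩)]

lemma num_aux {c0 cz X Y δ L : ℝ} (h0 : 0 < c0) (h1 : 0 < cz) (hδ : 0 < δ)
    (hL : -Real.log δ + 2 * X + Y ≤ L) (h : Real.log c0 < Real.log cz - L) :
    Real.exp Y * Real.exp X * c0 ≤ δ * (cz * Real.exp (-X)) := by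
  have e1 : Real.exp Y * Real.exp X * c0 = Real.exp (Y + X + Real.log c0) := by
    rw [Real.exp_add, Real.exp_add, Real.exp_log h0]
  have e2 : δ * (cz * Real.exp (-X)) = Real.exp (Real.log δ + (Real.log cz + -X)) := by
    rw [Real.exp_add, Real.exp_add, Real.exp_log hδ, Real.exp_log h1]
  rw [e1, e2]
  exact Real.exp_le_exp.2 (by linarith)

lemma window (hd : 0 < d) {β R δ L : ℝ} (hβ : 0 < β) (hδ : 0 < δ)
    {η : ℕ → (Fin d → ℤ) → ℝ} {l : ℕ} (hG : Good η l R) {γ : ℕ → Fin d → ℤ} {D s T m : ℕ}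
    {z : Fin d → ℤ} (hz : par z = 0) (hl : s + (T + (m + T)) ≤ l)
    (hc1 : ∀ t x y, InTube γ D t x → InTube γ D (t + T) y → ∑ k, |(y + z - x) k| ≤ (T : ℤ))
    (hc2 : ∀ t x y, InTube γ D t x → InTube γ D (t + T) y → ∑ k, |(y - (x + z)) k| ≤ (T : ℤ))
    (hL : -Real.log δ + 2 * (β * ((T + T : ℕ) * R)) + (T + T : ℕ) * Real.log (2 * d) ≤ L)
    (hcmp : (∃ p, TC γ D m (s + T) p) →
      Real.log (coreZ β η γ D m (s + T) 0) < Real.log (coreZ β η γ D m (s + T) z) - L) (r : ℕ) :
    ∑ w : Fin (s + (T + (m + T) + r)) → Step d,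
      (if (∀ i ≤ T + (m + T), InTube γ D (s + i) (pos w (s + i))) then
        Real.exp (β * energy η w) else 0) ≤ δ * ZF β η (s + (T + (m + T) + r)) := by
  rw [ZF_eq, Finset.mul_sum, sum_append]
  apply Finset.sum_le_sum
  intro a _
  rw [sum_append]
  have hp : ∀ k, |pos a s k| ≤ (s : ℤ) := fun k => abs_pos_le a s k
  have hpar : par (pos a s) = (s : ZMod 2) := par_pos a le_rfl
  have hA : ∑ b : Fin (T + (m + T)) → Step d, (if QQ γ D s (pos a s) b then
      Real.exp (β * energy (shift s (pos a s) η) b) else 0) ≤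
      δ * (coreZ β η γ D m (s + T) z * Real.exp (-(β * ((T + T : ℕ) * R)))) := by
    refine (incumbent hβ hG hp hpar hl).trans ?_
    by_cases hex : ∃ p, TC γ D m (s + T) p
    · have h0 := coreZ_pos (β := β) (η := η) (z := 0) hex
      have h1 := coreZ_pos (β := β) (η := η) (z := z) hex
      have h2 := hcmp hex
      have hd0 : (0 : ℝ) < d := by exact_mod_cast hd
      have hd2 : (0 : ℝ) < 2 * d := by positivity
      have e1 : (2 * (d : ℝ)) ^ (T + T) = Real.exp ((T + T : ℕ) * Real.log (2 * d)) := by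
        rw [← Real.rpow_natCast, Real.rpow_def_of_pos hd2, mul_comm]
      rw [e1]
      exact num_aux h0 h1 hδ hL h2
    · rw [coreZ_zero hex, coreZ_zero hex]
      simp
  have hY : ∀ b : Fin (T + (m + T)) → Step d, QQ γ D s (pos a s) b →
      coreZ β η γ D m (s + T) z * Real.exp (-(β * ((T + T : ℕ) * R))) ≤
      ZY β (shift s (pos a s) η) (T + (m + T)) (pos b (T + (m + T))) := by
    intro b hb
    have hpT : InTube γ D s (pos a s) := by
      have := hb 0 (by omega)
      have h5 : pos b 0 = 0 := by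
        unfold pos
        simp
      rw [h5, add_zero, add_zero] at this
      exact this
    exact competitor hd hβ hG hp hpar hpT hz hl hc1 hc2 hb
  have hfin := cmp_end (Q := fun b => QQ γ D s (pos a s) b) hA hδ.le hY hd r
  have e : ∀ (b : Fin (T + (m + T)) → Step d) (c : Fin r → Step d),
      (if (∀ i ≤ T + (m + T), InTube γ D (s + i) (pos (Fin.append a (Fin.append b c)) (s + i)))
        then Real.exp (β * energy η (Fin.append a (Fin.append b c))) else 0) =
      Real.exp (β * energy η a) * ((if QQ γ D s (pos a s) b then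
        Real.exp (β * energy (shift s (pos a s) η) b) else 0) *
        Real.exp (β * energy (shift (T + (m + T)) (pos b (T + (m + T)))
          (shift s (pos a s) η)) c)) := by
    intro b c
    have hiff : (∀ i ≤ T + (m + T),
        InTube γ D (s + i) (pos (Fin.append a (Fin.append b c)) (s + i))) ↔
        QQ γ D s (pos a s) b := by
      unfold QQ
      apply forall_congr'
      intro i
      apply imp_congr_right
      intro hi
      rw [pos_append_right, pos_append_left b c hi]
    by_cases hq : QQ γ D s (pos a s) b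
    · rw [if_pos (hiff.2 hq), if_pos hq, energy_append, energy_append, ← Real.exp_add,
        ← Real.exp_add]
      congr 1
      ring
    · rw [if_neg (fun h => hq (hiff.1 h)), if_neg hq]
      ring
  calc ∑ b : Fin (T + (m + T)) → Step d, ∑ c : Fin r → Step d,
      (if (∀ i ≤ T + (m + T), InTube γ D (s + i) (pos (Fin.append a (Fin.append b c)) (s + i)))
        then Real.exp (β * energy η (Fin.append a (Fin.append b c))) else 0)
      = Real.exp (β * energy η a) * ∑ b : Fin (T + (m + T)) → Step d,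
        (if QQ γ D s (pos a s) b then
        Real.exp (β * energy (shift s (pos a s) η) b) else 0) *
        ZF β (shift (T + (m + T)) (pos b (T + (m + T))) (shift s (pos a s) η)) r := by
        rw [Finset.mul_sum]
        apply Finset.sum_congr rfl
        intro b _
        unfold ZF
        rw [Finset.mul_sum, Finset.mul_sum]
        apply Finset.sum_congr rfl
        intro c _
        exact e b c
    _ ≤ Real.exp (β * energy η a) * (δ * ZF β (shift s (pos a s) η) (T + (m + T) + r)) :=
        mul_le_mul_of_nonneg_left hfin (Real.exp_pos _).le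
    _ = δ * (Real.exp (β * energy η a) * ZF β (shift s (pos a s) η) (T + (m + T) + r)) := by
        ring

/-- the polymer measure of staying in the tube around `γ` up to time `l` -/
lemma polymer_tube (hd : 0 < d) {β R δ L ρ : ℝ} (hβ : 0 < β) (hδ : 0 < δ)
    {η : ℕ → (Fin d → ℤ) → ℝ} {l : ℕ} (hG : Good η l R) {γ : ℕ → Fin d → ℤ} {D s T m : ℕ}
    (hD : D = ⌊ρ⌋₊)
    {z : Fin d → ℤ} (hz : par z = 0) (hl : s + (T + (m + T)) ≤ l)
    (hc1 : ∀ t x y, InTube γ D t x → InTube γ D (t + T) y → ∑ k, |(y + z - x) k| ≤ (T : ℤ))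
    (hc2 : ∀ t x y, InTube γ D t x → InTube γ D (t + T) y → ∑ k, |(y - (x + z)) k| ≤ (T : ℤ))
    (hL : -Real.log δ + 2 * (β * ((T + T : ℕ) * R)) + (T + T : ℕ) * Real.log (2 * d) ≤ L)
    (hcmp : (∃ p, TC γ D m (s + T) p) →
      Real.log (coreZ β η γ D m (s + T) 0) < Real.log (coreZ β η γ D m (s + T) z) - L)
    {n : ℕ} (hn : l ≤ n) :
    polymerProb β η n {w | ∀ i ≤ l, euclid (pos w i - γ i) ≤ ρ} ≤ δ := by
  obtain ⟨r, rfl⟩ : ∃ r, n = s + (T + (m + T) + r) := ⟨n - (s + (T + (m + T))), by omega⟩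
  rw [polymerProb_eq hd, div_le_iff₀ (ZF_pos hd β η _)]
  refine le_trans ?_ (window hd hβ hδ hG hz hl hc1 hc2 hL hcmp r)
  apply Finset.sum_le_sum
  intro w _
  by_cases hw : w ∈ {w : Fin (s + (T + (m + T) + r)) → Step d |
      ∀ i ≤ l, euclid (pos w i - γ i) ≤ ρ}
  · have hc : ∀ i ≤ T + (m + T), InTube γ D (s + i) (pos w (s + i)) := by
      intro i hi k
      have h2 := (abs_le_euclid (pos w (s + i) - γ (s + i)) k).trans (hw (s + i) (by omega))
      rw [Pi.sub_apply] at h2
      have h3 : ((pos w (s + i) k - γ (s + i) k).natAbs : ℝ) ≤ ρ := by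
        rw [Nat.cast_natAbs]
        push_cast
        push_cast at h2
        exact h2
      have h4 := Nat.le_floor h3
      rw [Int.abs_eq_natAbs, hD]
      exact_mod_cast h4
    rw [Set.indicator_of_mem hw, if_pos hc]
  · rw [Set.indicator_of_notMem hw]
    split_ifs
    · positivity
    · exact le_rfl

end Pool.Agent.R800.DT
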